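import Pool.Agent.helper10.OM.SpecG
import Pool.Agent.helper11.TX.Spec2
import Pool.Agent.helper7.AL.Spec

/-!
# Project EP (MP_bf63dc_nt, HARD 7, rows `ep:*`): EVERY PAIR of coefficients, up to a bounded factor

THEOREM. (1) For every `ε > 0` there is a FINITE set `S` such that for ALL `a, b ≥ 1` some `u ∈ S` has `(u a, b)` (divided by the gcd)
`ε`-good: all but a proportion `ε` of the `c` in arbitrarily long stretches of a residue class are true. (2) The same with: at least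
`1/3 - ε` of ALL admissible `c`, `|c| ≤ X` (weights of Hardy and Littlewood), are true, for arbitrarily large `X`. (3) THREE integers
`s_i` suffice for a tenth. (4) For every `m` there is a FINITE set `V` of linear forms such that for EVERY `b ≥ 1` and EVERY `c` prime to
`b` there are infinitely many primes `p = b μ + c` for which at least `m` of the numbers `s μ + t`, `(s, t) ∈ V`, are primes `≠ p`.
(5) There are `A`, `C` such that for ALL `a, b ≥ 1` some `u ≤ A` has `0 < |u a p - b q| ≤ C (a + b)` for infinitely many pairs of primes.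

IDEA. A family without good pair of MAXIMUM size: dilating it (substituting `a n + m'` for `n`) gives again such a family, again of maximum
size, so every further integer `b` (form `b n + h`) is good with one of its members.

RULES. Row `XX`: file `Pool/Agent/<seat>/EP/XX.lean`, `import Pool.Agent.helper99.EP.Spec`, namespace `Pool.Agent.EP`,
`theorem XX (hYY : YY_stmt) ... : XX_stmt`, other rows only as hypotheses (drop those you do not need), auxiliary lemmas prefixed `XX_`. No `convert`,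
no `congr!`, no `native_decide`, no straight double quotes; `open Classical in` only before definitions.
-/

set_option autoImplicit false

namespace Pool.Agent.EP

open Finset Pool.Agent.helper85.FC Pool.Agent.OM Pool.Agent.helper11.TX Pool.Agent.AT

/-! ## Part M: the maximum clique -/

/-- **MXC** (short to medium; pure Mathlib).  Call a finite set `X` of positive integers FREE if no two different elements of it are related (in either
order).  By hypothesis `#X ≤ k`; the empty set is free. Take a free `S` with `#S` maximal (`Nat.findGreatest`, or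
`Finset.exists_max_image` on the values, or induction on `k - #S`). Given `a, b ≥ 1`: if `b = s * a` with `s ∈ S`: `R b b`. Otherwise
`Y = insert b (S.image (· * a))` has `#S + 1` elements (`a ≥ 1`: the map is injective; `b` is new), so `Y` is not free: two different elements
are related; `s * a`, `s' * a` related would give `R s s'` (hypothesis 3) with `s ≠ s'`, against `S` free; so `b` is related to some
`s * a`; use symmetry. -/
def MXC_stmt : Prop := ∀ (k : ℕ) (R : ℕ → ℕ → Prop), (∀ s t, R s t → R t s) → (∀ s, 1 ≤ s → R s s) →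
  (∀ c s t, 1 ≤ c → 1 ≤ s → 1 ≤ t → R (s * c) (t * c) → R s t) →
  (∀ X : Finset ℕ, (∀ s ∈ X, 1 ≤ s) → k < #X → ∃ s ∈ X, ∃ t ∈ X, s ≠ t ∧ R s t) →
  ∃ S : Finset ℕ, #S ≤ k ∧ (∀ s ∈ S, 1 ≤ s) ∧ ∀ a b : ℕ, 1 ≤ a → 1 ≤ b → ∃ s ∈ S, R (s * a) b

/-! ## Part A: all but `ε` of the `c` in a class -/

/-- **GQS** (short; from GSY: Pool/Agent/helper25/OM/GSY.lean, take `hGSY : GSY_stmt` as hypothesis).  (1) `Nat.gcd_comm`. (2) the reduced fraction does not change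
(`Nat.gcd_mul_right`, `Nat.mul_div_mul_right`; `c ≥ 1`). (3) `NR` is the same, `1 - ε' ≤ 1 - ε`. -/
def GQS_stmt : Prop := (∀ (ε : ℝ) (s t : ℕ), GQ ε s t → GQ ε t s) ∧
  (∀ (ε : ℝ) (c s t : ℕ), 1 ≤ c → (GQ ε (s * c) (t * c) ↔ GQ ε s t)) ∧
  ∀ (ε ε' : ℝ) (s t : ℕ), ε ≤ ε' → GQ ε s t → GQ ε' s t

/-- **PW2** (medium; from OMG, GQS).  `OMG`: `η` for `ε`; `L ≥ 4` with `2 L - 1 ≤ η L²`. (1) `F = {2^i : i < L}`: `#F = L`, the quotients are the `2^j`, `|j| < L`: at most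
`2 L - 1`. At least `(1/3 - ε) L² > L` pairs are good (`1/3 - 1/100 > 1/4 ≥ 1/L`), so one with `i ≠ j`; by GQS (symmetry, scaling by `2^min`) `GQ ε (2^k) 1`, `k = |i - j|`,
`1 ≤ k < L`. (2) `X` has four elements, no `s = 2^k t` with `k < L` for different `s, t ∈ X`. `F` = the image of `X × [0, L)` under `(s, i) ↦ s 2^i`: injective
(`s 2^i = t 2^j`, `i ≤ j`, gives `s = 2^(j-i) t`), `#F = 4 L`; the quotient of `(s, i)`, `(t, j)` is `(s/t) 2^(i-j)`: it is determined by `s`, `t` and `i + (L - 1) - j < 2L - 1`, so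
`#(QF F) ≤ 16 (2 L - 1) ≤ η (4 L)²`. At least `(1/3 - ε) 16 L² > 5 L²` good pairs, at most `4 L²` of them have the same `s`; so there are `s ≠ t`, `i`, `j` with `GQ ε (s 2^i) (t 2^j)`;
scale by `2^min(i,j)`. -/
def PW2_stmt : Prop := OMG → ∀ ε : ℝ, 0 < ε → ε ≤ 1 / 100 → ∃ L : ℕ, 4 ≤ L ∧ (∃ k : ℕ, 1 ≤ k ∧ k < L ∧ GQ ε (2 ^ k) 1) ∧
  ∀ X : Finset ℕ, (∀ s ∈ X, 1 ≤ s) → #X = 4 → (∀ s ∈ X, ∀ t ∈ X, s ≠ t → ∀ k < L, s ≠ 2 ^ k * t) →
  ∃ s ∈ X, ∃ t ∈ X, s ≠ t ∧ ∃ k < L, GQ ε (2 ^ k * s) t ∨ GQ ε s (2 ^ k * t)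

/-- THEOREM (1): every pair is almost solved, up to a bounded factor -/
def EvA : Prop := ∀ ε : ℝ, 0 < ε → ∃ S : Finset ℕ, (∀ s ∈ S, 1 ≤ s) ∧ ∀ a b : ℕ, 1 ≤ a → 1 ≤ b → ∃ u ∈ S, GQ ε (u * a) b

/-- **EVA** (medium; from MXC, GQS, PW2).  `ε ≤ 1/100` without loss (GQS (3)); `L`, `k₁` (`1 ≤ k₁ < L`, `GQ ε (2^k₁) 1`) from PW2. `R s t := ∃ k < 2 * L, GQ ε (2 ^ k * s) t ∨ GQ ε s (2 ^ k * t)`.
Symmetric: GQS (1). `R (s c) (t c) → R s t`: GQS (2). Reflexive: GQS (2) with `c = s` gives `GQ ε (2^k₁ * s) (1 * s)`. REMARK: if `s = 2^j t`, `j < L`, then `R s t`: `GQ ε s (2^k₁ s)` (symmetry) is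
`GQ ε s (2^(k₁+j) t)`, `k₁ + j < 2 L`. Any four different positive integers contain two different related ones: by the remark (and symmetry), or by PW2 (2). A set with more than 3 elements contains one with 4. So MXC
with `k = 3` gives `S₀`; `S` = the `2^i s`, `s ∈ S₀`, `i < 4 L`. Given `a, b`: MXC for `2^(2L) a`, `b`: `s ∈ S₀`, `k < 2L` with `GQ ε (2^k (s (2^(2L) a))) b`: `u = 2^(2L+k) s`; or
`GQ ε (s (2^(2L) a)) (2^k b)`: by GQS (2) with `c = 2^k` `GQ ε (2^(2L-k) s a) b`, `u = 2^(2L-k) s`. -/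
def EVA_stmt : Prop := OMG → EvA

/-! ## Part B: a third of all `c` -/

open Classical in
/-- the mass of the `c` with `|c| ≤ X` and `P a b c` -/
noncomputable def Ms (P : ℕ → ℕ → ℤ → Prop) (a b X : ℕ) : ℝ := ∑ c ∈ Icc (-(X : ℤ)) X with P a b c, SS a b c

/-- for arbitrarily large `X` the true `c` have at least `δ` of the mass of the admissible `c`, `|c| ≤ X` -/
def UD (δ : ℝ) (a b : ℕ) : Prop := ∀ X₀ : ℕ, ∃ X : ℕ, X₀ ≤ X ∧ δ * Ms Adm a b X ≤ Ms TrueCase a b X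

/-- the same for the ratio `s : t` in lowest terms -/
def UQ (δ : ℝ) (s t : ℕ) : Prop := UD δ (s / Nat.gcd s t) (t / Nat.gcd s t)

/-- **WDW** (short).  `Tw P SS a b (2 M) (-M)` is the sum over `-bM < c ≤ b M`; the only further `c` in `Icc (-bM) (bM)` is `c = -b M`, and it is not admissible (so not true: the first seven
conditions of `TrueCase` are `Adm`): if `b ≥ 2` it is not prime to `b`; if `b = 1`, `a ≥ 2` then `a ∣ M`, so it is not prime to `a`; if `a = b = 1` it is odd. -/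
def WDW_stmt : Prop := ∀ a b M : ℕ, 1 ≤ a → 1 ≤ b → 1 ≤ M → (a = 1 ∧ b = 1 ∧ Odd M ∨ (¬ (a = 1 ∧ b = 1)) ∧ a ∣ M) →
  Tw TrueCase SS a b (2 * M) (-(M : ℤ)) = Ms TrueCase a b (b * M) ∧ Tw Adm SS a b (2 * M) (-(M : ℤ)) = Ms Adm a b (b * M)

/-- **UQS** (short to medium; from WDW for (3)).  (1) `c ↦ -c` (`TrueCase a b c ↔ TrueCase b a (-c)`, compare `GSY`, helper25/OM/GSY.lean, or `PSY_symm`, helper72/AT/PSY.lean; `SS` is
symmetric and depends on `|c|`), `Nat.gcd_comm`. (2) as GQS (2). (3) `UQ δ s s` is `UD δ 1 1`; `DFk (1/3)` for `S = {1}`, `h = 1`, `ε = 1/3 - δ`, `u = -M`, `2M` for `M`, `M` odd and large: `δ ≤ DD 1 1 (2M) (-M)`,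
WDW; if the denominator is `0` the inequality `δ * 0 ≤ ..` holds too (`Ms ≥ 0` as `SS ≥ 0`). -/
def UQS_stmt : Prop := (∀ (δ : ℝ) (s t : ℕ), UQ δ s t → UQ δ t s) ∧
  (∀ (δ : ℝ) (c s t : ℕ), 1 ≤ c → (UQ δ (s * c) (t * c) ↔ UQ δ s t)) ∧
  (DFk (1 / 3) → ∀ δ : ℝ, 0 ≤ δ → δ < 1 / 3 → ∀ s : ℕ, 1 ≤ s → UQ δ s s)

/-- **UQC** (medium; from WDW, UQS (1)).  Suppose no two different elements of `X` satisfy `UQ δ`, `m = #X`. So for all `s ≠ t` in `X` and all large `Z` `Ms TrueCase < δ Ms Adm` for `(t/g, s/g)` at `Z`.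
`ε' > 0` with `(1/3 - ε') m² > m + m (m - 1) δ` (`ε' = (1/3 m - 1 - (m-1) δ)/(2m)`). `M` = a large multiple of `∏ X`. `DFk (1/3)` (`S = X`, `h = 1`, `2M`, `u = -M`):
`(1/3 - ε') m² ≤ ∑_(s,t) DD (t/g) (s/g) (2M) (-M)`. For `s ≠ t` WDW (`t/g ∣ t ∣ M`) and `DD ≤ δ` (a quotient with denominator `0` is `0 ≤ δ`). For `s = t`: `DD ≤ 1`
(the true `c` are admissible, `SS ≥ 0`). So the sum is at most `m + m (m - 1) δ`. -/
def UQC_stmt : Prop := DFk (1 / 3) → ∀ (δ : ℝ) (X : Finset ℕ), 0 ≤ δ → (∀ s ∈ X, 1 ≤ s) → 1 + ((#X : ℝ) - 1) * δ < (#X : ℝ) / 3 → 1 ≤ #X →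
  ∃ s ∈ X, ∃ t ∈ X, s ≠ t ∧ UQ δ s t

/-- THEOREM (2), (3): a third of all `c`, a tenth with three factors -/
def EvB : Prop := (∀ ε : ℝ, 0 < ε → ∃ S : Finset ℕ, (∀ s ∈ S, 1 ≤ s) ∧ ∀ a b : ℕ, 1 ≤ a → 1 ≤ b → ∃ u ∈ S, UQ (1 / 3 - ε) (u * a) b) ∧
  ∃ S : Finset ℕ, #S ≤ 3 ∧ (∀ s ∈ S, 1 ≤ s) ∧ ∀ a b : ℕ, 1 ≤ a → 1 ≤ b → ∃ u ∈ S, UQ (1 / 10) (u * a) b

/-- **EVB** (short to medium; from MXC, UQS, UQC).  MXC with `R = UQ δ`. (1) `ε < 1/3` without loss (`UQ δ` for `δ ≤ 0`: trivial, or `UQ` monotone; `Ms ≥ 0`), `δ = 1/3 - ε`, `k ≥ 1/ε`: `1 + (m - 1)(1/3 - ε) < m/3` for `m ≥ k`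
(`2/3 + ε < m ε` for `m > k ≥ 1/ε`; take `k` larger if convenient). (2) `δ = 1/10`, `k = 3`: take a subset with 4 elements, `1 + 3/10 < 4/3`. -/
def EVB_stmt : Prop := DFk (1 / 3) → EvB

/-! ## Part C: forms. Every `b` and every `c`; bounded gaps -/

/-- the universe: forms `s n + t`, `s ≥ 1`, `t` prime to `s` and to all primes `≤ R` -/
def FU (R : ℕ) (v : ℕ × ℤ) : Prop := 0 < v.1 ∧ IsCoprime (v.1 : ℤ) v.2 ∧ ∀ l : ℕ, l.Prime → l ≤ R → ¬ (l : ℤ) ∣ v.2

/-- the number of the forms in `X` which are prime at `n` -/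
def cp (X : Finset (ℕ × ℤ)) (n : ℤ) : ℕ := #{v ∈ X | ((v.1 : ℤ) * n + v.2).toNat.Prime}

/-- at most `m` forms of `X` are prime at `n`, for all large `n` -/
def Poor (m : ℕ) (X : Finset (ℕ × ℤ)) : Prop := ∃ N : ℕ, ∀ n : ℕ, N ≤ n → cp X n ≤ m

/-- **FUR** (medium; from `FMk (4 * m)`; `theorem FUR (hLNV : Pool.Agent.AL.LNV_stmt) : FUR_stmt`).  `k = 4 m`, `K` from `FMk k`, `R = k K`. `X` in the universe `FU Q`, `Q ≥ R`, with `#X ≥ R`: choose `R` elements, enumerate them by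
`Fin k × Fin K` (`Finset.equivFinOfCardEq`, `finProdFinEquiv`), `A x = (form x).1`, `B x = (form x).2`. Not proportional: `s t' = s' t` with `gcd(s, t) = gcd(s', t') = 1`, `s, s' > 0` gives `s = s'`, `t = t'`. Admissible:
`p ≤ R`: `n = 0`; `p > R`: the row LNV of AL (if `p ∣ s` then `p ∤ t`). `FMk`: for every `N` some `n ≥ N` with more than
`(1/4 + 1/500000) 4 m > m` clusters hit, so at least `m + 1` forms of `X` are prime at `n` (one for each hit cluster, different forms). So `X` is not poor. -/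
def FUR_stmt : Prop := (∀ k : ℕ, 1 ≤ k → FMk k) → ∀ m : ℕ, 1 ≤ m → ∃ R : ℕ, 1 ≤ R ∧ ∀ Q : ℕ, R ≤ Q →
  ∀ X : Finset (ℕ × ℤ), (∀ v ∈ X, FU Q v) → R ≤ #X → ¬ Poor m X

/-- `V` is a dominating family: for every substitution `n ↦ a n + m'` and every form `b n + h`, if all forms are in the universe, then `b n + h` and at least `m` of the forms of `V` at `a n + m'` are prime and different, for infinitely many `n` -/
def Dom (m Q : ℕ) (V : Finset (ℕ × ℤ)) : Prop := (∀ v ∈ V, FU Q v) ∧ ∀ (a b : ℕ) (h m' : ℤ), 1 ≤ a → FU Q (b, h) →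
  (∀ v ∈ V, FU Q (v.1 * a, v.1 * m' + v.2)) → ∀ N : ℕ, ∃ n : ℕ, N ≤ n ∧ 0 ≤ (a : ℤ) * n + m' ∧ ((b : ℤ) * n + h).toNat.Prime ∧
    m ≤ #{v ∈ V | ((v.1 : ℤ) * (a * n + m') + v.2).toNat.Prime ∧ (v.1 : ℤ) * (a * n + m') + v.2 ≠ b * n + h}

/-- **MXF** (medium; from FUR; the heart).  `R` from FUR, `κ = 2 R`, `Q = 2 κ`. The poor sets in the universe `FU Q` have fewer than `R` elements; the empty set is poor; let `X` be a poor set in the universe with `#X` maximal.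
`x₀` large: `X' = {(s, s Q! x₀ + t) : (s, t) ∈ X}` is in the universe, disjoint from `X` (all second entries are larger than those of `X`), has `#X` elements and is poor
(`s n + (s Q! x₀ + t) = s (n + Q! x₀) + t`). `V = X ∪ X'`, `#V < 2 R = κ`. Given `a, b, h, m'`: `σ v = (v.1 a, v.1 m' + v.2)` is injective (`a ≥ 1`), so `σ X` and `σ X'` are disjoint, in the universe by hypothesis, and poor: the value of `σ v` at `n` is the
value of `v` at `a n + m'`, and `a n + m'` is a natural number `≥ N` for `n ≥ N + |m'|`. `w = (b, h)` is not in `Y`, `Y = σ X` or `Y = σ X'`. `insert w Y` is in the universe and has more elements than `X`, so it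
is not poor: for every `N` some `n ≥ N` has `m + 1 ≤ cp (insert w Y) n = cp Y n + [w(n) prime]`; for large `n` `cp Y n ≤ m`. So `w(n)` is prime and `m ≤ cp Y n`. Finally `v(n) ≠ w(n)` for all `v ∈ Y` for large `n`: two different forms have the same
value for at most one `n`. (`m ≥ 1` is not needed here.) -/
def MXF_stmt : Prop := (∀ k : ℕ, 1 ≤ k → FMk k) → ∀ m : ℕ, 1 ≤ m → ∃ (κ : ℕ) (V : Finset (ℕ × ℤ)), 1 ≤ κ ∧ #V ≤ κ ∧ Dom m (2 * κ) V

/-- THEOREM (4): every `b`, every `c` prime to `b` -/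
def EvC : Prop := ∀ m : ℕ, 1 ≤ m → ∃ V : Finset (ℕ × ℤ), (∀ v ∈ V, 0 < v.1) ∧ ∀ (b : ℕ) (c : ℤ), 1 ≤ b → IsCoprime (b : ℤ) c →
  ∀ N : ℕ, ∃ μ : ℕ, N ≤ μ ∧ ((b : ℤ) * μ + c).toNat.Prime ∧
    m ≤ #{v ∈ V | ((v.1 : ℤ) * μ + v.2).toNat.Prime ∧ (v.1 : ℤ) * μ + v.2 ≠ b * μ + c}

/-- **EVC** (short to medium; from MXF).  `κ`, `V₀` from MXF, `P = (2κ)!`. Given `b`, `c`: there is `0 ≤ j < P` with `c - b j` prime to every prime `l ≤ 2κ`: Chinese remainder theorem (`Nat.chineseRemainderOfFinset`, or induction); modulo `l ∤ b` choose `j`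
with `b j ≡ c - 1`, modulo `l ∣ b` any `j` (`c` is prime to `l`); take `j` modulo `P`. `w = (b, c - b j)` is in the universe (`c - b j` is prime to `b` as `c` is). MXF with `a = 1`, `m' = 0` (`σ v = v`), `N + P`: `n ≥ N + P`,
`μ = n - j`: `b μ + c = b n + (c - b j)`, `s n + t = s μ + (s j + t)`. `V` = the image of `V₀ × [0, P)` under `((s, t), j) ↦ (s, s j + t)`; for fixed `j` the map `(s, t) ↦ (s, s j + t)` is injective, so the count for `V` is at least the count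
for `V₀`. -/
def EVC_stmt : Prop := MXF_stmt → (∀ k : ℕ, 1 ≤ k → FMk k) → EvC

/-- THEOREM (5): bounded gaps for every pair, up to a bounded factor; in every interval -/
def EvD : Prop := ∃ (V : Finset (ℕ × ℤ)) (C : ℕ), (∀ v ∈ V, 0 < v.1) ∧ ∀ a b : ℕ, 1 ≤ a → 1 ≤ b → Nat.Coprime a b → ∀ x : ℤ,
  ∃ c : ℤ, x < c ∧ c ≤ x + C * (a + b) ∧ ∃ v ∈ V, (v.1 : ℤ) * c - b * v.2 ≠ 0 ∧
    {pq : ℕ × ℕ | pq.1.Prime ∧ pq.2.Prime ∧ ((v.1 * a : ℕ) : ℤ) * pq.1 - b * pq.2 = v.1 * c - b * v.2}.Infinite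

/-- **EVD** (medium; from MXF with `m = 1`, and the rows JAC, SOL of AL).  `κ`, `V` from MXF, `P = (2κ)!`, `C` from JAC for `κ`. For a prime
`l ∣ b` let `B l = {0}`; for `l ∣ a`, `l ∤ b` let `B l` contain for every `(s, t) ∈ V` with `l ∤ s` one integer `β` with `s β ≡ b t` mod `l` (at most `#V ≤ κ` elements); else `B l` is empty. JAC with `m = a b`, `g = a`, `√(ab) ≤ a + b`: `c ∈ (x, x + C (a + b)]`,
`P ∣ c - a`, avoiding these classes for all `l ∣ ab`, `l > 2κ`. SOL with `g = 1`, `g' = 0` (`P ∣ c - (a * 1 - b * 0)`): `h ≡ 1`, `m' ≡ 0` mod `P`, `a h - b m' = c`. `w = (b, h)` is in the universe `FU (2κ)`: for a prime `l ≤ 2κ` `h ≡ 1`; for `l ∣ b`,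
`l > 2κ`: `c ≡ a h` mod `l`, `l ∤ c`. `σ v = (s a, s m' + t)`, `v = (s, t) ∈ V`: a prime `l ≤ 2κ`: `s m' + t ≡ t`, `l ∤ t`; `l ∣ s`: `l ∤ t`; `l ∣ a`, `l > 2κ`, `l ∤ s` (so `l ∤ b`): `b (s m' + t) = s (a h - c) + b t ≡ b t - s c`, not divisible by `l`, as `c` is not congruent to the
`β` of `v`. `Dom`: for every `N` some `n ≥ N` and `v ∈ V` (`m = 1`: the set is not empty) with `p = b n + h`, `q = s (a n + m') + t` prime, `p ≠ q`; one `v` for infinitely many `n`; `n ↦ p` is injective. `s a p - b q = s a h - b (s m' + t) = s c - b t`.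
If this is `0` then `p ∣ b q`, so `p ∣ b` (`p ≠ q`), impossible for large `n`. -/
def EVD_stmt : Prop := MXF_stmt → Pool.Agent.AL.JAC_stmt → Pool.Agent.AL.SOL_stmt → (∀ k : ℕ, 1 ≤ k → FMk k) → EvD

end Pool.Agent.EP
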