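import Pool.Agent.helper7.EP.SpecH

/-!
# Project ep:, module JREC: the Hecke recursion modulo 2.
-/

set_option autoImplicit false

open Finset

namespace Pool.Agent.EP

theorem JREC_one (a : ℤ → ZMod 2) (l j : ℕ) (M : ℤ) (hl : l.Prime) (hj : 0 < j) :
    JG a j (l * M) = ∑ D ∈ (l * j).divisors.filter
      (fun D : ℕ => D ∣ j ∧ (D : ℤ) ∣ (l : ℤ) * M), a ((l : ℤ) * j * M / (D : ℤ) ^ 2) := by
  unfold JG
  apply Finset.sum_congr
  · ext D
    simp only [Finset.mem_filter, Nat.mem_divisors]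
    constructor
    · rintro ⟨⟨h1, h2⟩, h3⟩
      exact ⟨⟨Dvd.dvd.mul_left h1 l, Nat.mul_ne_zero hl.ne_zero hj.ne'⟩, h1, h3⟩
    · rintro ⟨_, h1, h3⟩
      exact ⟨⟨h1, hj.ne'⟩, h3⟩
  · intro D _
    congr 2
    ring

theorem JREC_two (a : ℤ → ZMod 2) (l j : ℕ) (M : ℤ) (hl : l.Prime) (hj : 0 < j) :
    (if (l : ℤ) ∣ M then JG a j (M / l) else 0) = ∑ D ∈ (l * j).divisors.filter
      (fun D : ℕ => l ∣ D ∧ (D : ℤ) ∣ M), a ((l : ℤ) * j * M / (D : ℤ) ^ 2) := by
  have hl0 : (l : ℤ) ≠ 0 := by exact_mod_cast hl.ne_zero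
  split_ifs with h
  · obtain ⟨N, rfl⟩ := h
    rw [Int.mul_ediv_cancel_left _ hl0]
    unfold JG
    refine Finset.sum_nbij (fun d => l * d) ?_ ?_ ?_ ?_
    · intro d hd
      simp only [Finset.mem_filter, Nat.mem_divisors] at hd ⊢
      refine ⟨⟨Nat.mul_dvd_mul_left l hd.1.1, Nat.mul_ne_zero hl.ne_zero hj.ne'⟩, Dvd.intro _ rfl, ?_⟩
      push_cast
      exact mul_dvd_mul_left _ hd.2
    · intro d _ e _ hde
      exact Nat.eq_of_mul_eq_mul_left hl.pos hde
    · intro D hD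
      simp only [Finset.coe_filter, Set.mem_ofPred_eq, Nat.mem_divisors] at hD
      obtain ⟨⟨h1, _⟩, ⟨d, rfl⟩, h3⟩ := hD
      refine ⟨d, ?_, rfl⟩
      simp only [Finset.coe_filter, Set.mem_ofPred_eq, Nat.mem_divisors]
      push_cast at h3
      exact ⟨⟨Nat.dvd_of_mul_dvd_mul_left hl.pos h1, hj.ne'⟩, (mul_dvd_mul_iff_left hl0).1 h3⟩
    · intro d _
      congr 1
      push_cast
      have e1 : (l : ℤ) * j * (l * N) = (l : ℤ) ^ 2 * (j * N) := by ring
      have e2 : ((l : ℤ) * d) ^ 2 = (l : ℤ) ^ 2 * (d : ℤ) ^ 2 := by ring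
      rw [e1, e2, Int.mul_ediv_mul_of_pos _ _ (by positivity)]
  · symm
    apply Finset.sum_eq_zero
    intro D hD
    simp only [Finset.mem_filter] at hD
    exact absurd (dvd_trans (Int.natCast_dvd_natCast.2 hD.2.1) hD.2.2) h

theorem JREC_four (a : ℤ → ZMod 2) (l j : ℕ) (M : ℤ) (hl : l.Prime) (hj : 0 < j) :
    (if l ∣ j then JG a (j / l) M else 0) = ∑ D ∈ (l * j).divisors.filter
      (fun D : ℕ => l ∣ D ∧ D ∣ j ∧ (D : ℤ) ∣ (l : ℤ) * M), a ((l : ℤ) * j * M / (D : ℤ) ^ 2) := by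
  have hl0 : (l : ℤ) ≠ 0 := by exact_mod_cast hl.ne_zero
  split_ifs with h
  · obtain ⟨k, rfl⟩ := h
    have hk : 0 < k := Nat.pos_of_mul_pos_left hj
    rw [Nat.mul_div_cancel_left _ hl.pos]
    unfold JG
    refine Finset.sum_nbij (fun d => l * d) ?_ ?_ ?_ ?_
    · intro d hd
      simp only [Finset.mem_filter, Nat.mem_divisors] at hd ⊢
      have h1 : l * d ∣ l * k := Nat.mul_dvd_mul_left l hd.1.1
      refine ⟨⟨Dvd.dvd.mul_left h1 l, Nat.mul_ne_zero hl.ne_zero hj.ne'⟩, Dvd.intro _ rfl, h1, ?_⟩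
      push_cast
      exact mul_dvd_mul_left _ hd.2
    · intro d _ e _ hde
      exact Nat.eq_of_mul_eq_mul_left hl.pos hde
    · intro D hD
      simp only [Finset.coe_filter, Set.mem_ofPred_eq, Nat.mem_divisors] at hD
      obtain ⟨_, ⟨d, rfl⟩, h2, h3⟩ := hD
      refine ⟨d, ?_, rfl⟩
      simp only [Finset.coe_filter, Set.mem_ofPred_eq, Nat.mem_divisors]
      push_cast at h3
      exact ⟨⟨Nat.dvd_of_mul_dvd_mul_left hl.pos h2, hk.ne'⟩, (mul_dvd_mul_iff_left hl0).1 h3⟩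
    · intro d _
      congr 1
      push_cast
      have e1 : (l : ℤ) * (l * k) * M = (l : ℤ) ^ 2 * (k * M) := by ring
      have e2 : ((l : ℤ) * d) ^ 2 = (l : ℤ) ^ 2 * (d : ℤ) ^ 2 := by ring
      rw [e1, e2, Int.mul_ediv_mul_of_pos _ _ (by positivity)]
  · symm
    apply Finset.sum_eq_zero
    intro D hD
    simp only [Finset.mem_filter] at hD
    exact absurd (dvd_trans hD.2.1 hD.2.2.1) h

theorem JREC : JREC_stmt := by
  intro a l j M hl hj
  rw [JREC_one a l j M hl hj, JREC_two a l j M hl hj, JREC_four a l j M hl hj]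
  have h3 : JG a (l * j) M = ∑ D ∈ (l * j).divisors.filter
      (fun D : ℕ => (D : ℤ) ∣ M), a ((l : ℤ) * j * M / (D : ℤ) ^ 2) := by
    unfold JG
    apply Finset.sum_congr rfl
    intro D _
    congr 2
  rw [h3, Finset.sum_filter, Finset.sum_filter, Finset.sum_filter, Finset.sum_filter,
    ← Finset.sum_add_distrib, ← Finset.sum_add_distrib]
  apply Finset.sum_congr rfl
  intro D hD
  rw [Nat.mem_divisors] at hD
  by_cases hlD : l ∣ D
  · simp only [hlD, true_and]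
    rw [add_comm]
  · simp only [hlD, false_and, if_false, add_zero]
    have hcop : Nat.Coprime D l := ((Nat.Prime.coprime_iff_not_dvd hl).2 hlD).symm
    have h1 : D ∣ j := hcop.dvd_of_dvd_mul_left hD.1
    have h2 : (D : ℤ) ∣ (l : ℤ) * M ↔ (D : ℤ) ∣ M := by
      constructor
      · intro h
        have hc : IsCoprime (D : ℤ) (l : ℤ) := Nat.isCoprime_iff_coprime.2 hcop
        exact hc.dvd_of_dvd_mul_left h
      · intro h
        exact Dvd.dvd.mul_left h _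
    simp only [h1, h2, true_and]

end Pool.Agent.EP
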