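import Pool.Agent.helper7.EP.SpecH

/-!
# Project ep:, module HT: the forms of the Hecke identity are periodic.
-/

set_option autoImplicit false

open Finset

namespace Pool.Agent.EP

theorem HT_exp (s t : ℤ) (h : (3 : ℤ) ∣ s - t) :
    Complex.exp (2 * Real.pi * Complex.I * s / 3) = Complex.exp (2 * Real.pi * Complex.I * t / 3) := by
  obtain ⟨k, hk⟩ := h
  have hs : (s : ℂ) = t + 3 * k := by
    have : s = t + 3 * k := by linarith
    rw [this]
    push_cast
    ring
  have h1 : 2 * (Real.pi : ℂ) * Complex.I * s / 3 =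
      2 * Real.pi * Complex.I * t / 3 + k * (2 * Real.pi * Complex.I) := by
    rw [hs]
    ring
  rw [h1, Complex.exp_add, Complex.exp_int_mul_two_pi_mul_I, mul_one]

theorem HT_pow (l : ℕ) : Complex.exp (2 * Real.pi * Complex.I * ((1 : ℤ) : ℂ) / 3) ^ l =
    Complex.exp (2 * Real.pi * Complex.I * ((l : ℤ) : ℂ) / 3) := by
  rw [← Complex.exp_nat_mul]
  congr 1
  push_cast
  ring

theorem HT (hE : ETT_stmt) : HT_stmt := by
  intro l m hl h5 z _
  have hF : Fact l.Prime := ⟨hl⟩
  have hl0 : (l : ℂ) ≠ 0 := by exact_mod_cast hl.ne_zero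
  have h24 : (24 : ZMod l) ≠ 0 := by
    intro h
    have h1 : ((24 : ℕ) : ZMod l) = 0 := by exact_mod_cast h
    rw [ZMod.natCast_eq_zero_iff] at h1
    have h2 : l ∣ 2 ^ 3 * 3 := by norm_num; exact h1
    rcases (Nat.Prime.dvd_mul hl).1 h2 with h3 | h3
    · have := Nat.le_of_dvd (by norm_num) (hl.dvd_of_dvd_pow h3)
      omega
    · have := Nat.le_of_dvd (by norm_num) h3
      omega
  set W : ℂ := Complex.exp (2 * Real.pi * Complex.I * ((l : ℤ) : ℂ) / 3) with hW
  have hW0 : W ≠ 0 := Complex.exp_ne_zero _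
  have hnum : ModularForm.eta (z + 1) ^ (8 * l) = W * ModularForm.eta z ^ (8 * l) := by
    have h := hE 1 z
    rw [Int.cast_one] at h
    rw [pow_mul, h, mul_pow, ← pow_mul, hW, ← HT_pow, Int.cast_one]
  have hlast : ModularForm.eta (l * (z + 1)) ^ 8 = W * ModularForm.eta (l * z) ^ 8 := by
    have h := hE l (l * z)
    rw [← h]
    congr 2
    push_cast
    ring
  unfold Hf
  rw [hnum, hlast, mul_div_mul_left _ _ hW0]
  congr 2
  refine Finset.sum_nbij' (fun b : ℕ => (((24 : ZMod l) * b + 1) * (24 : ZMod l)⁻¹).val)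
    (fun b : ℕ => (((24 : ZMod l) * b - 1) * (24 : ZMod l)⁻¹).val) ?_ ?_ ?_ ?_ ?_
  · intro b _
    exact Finset.mem_range.2 (ZMod.val_lt _)
  · intro b _
    exact Finset.mem_range.2 (ZMod.val_lt _)
  · intro b hb
    have h1 : ((24 : ZMod l) * ((((24 : ZMod l) * b + 1) * (24 : ZMod l)⁻¹).val : ZMod l) - 1) *
        (24 : ZMod l)⁻¹ = (b : ZMod l) := by
      rw [ZMod.natCast_zmod_val]
      field_simp
      ring
    rw [h1, ZMod.val_natCast_of_lt (Finset.mem_range.1 hb)]
  · intro b hb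
    have h1 : ((24 : ZMod l) * ((((24 : ZMod l) * b - 1) * (24 : ZMod l)⁻¹).val : ZMod l) + 1) *
        (24 : ZMod l)⁻¹ = (b : ZMod l) := by
      rw [ZMod.natCast_zmod_val]
      field_simp
      ring
    rw [h1, ZMod.val_natCast_of_lt (Finset.mem_range.1 hb)]
  · intro b _
    try simp only
    set b' : ℕ := (((24 : ZMod l) * b + 1) * (24 : ZMod l)⁻¹).val with hb'
    have hdvd : (l : ℤ) ∣ 24 * (b : ℤ) + 1 - 24 * b' := by
      rw [← ZMod.intCast_zmod_eq_zero_iff_dvd]
      push_cast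
      rw [hb', ZMod.natCast_zmod_val]
      field_simp
      ring
    obtain ⟨t, ht⟩ := hdvd
    have htl : (3 : ℤ) ∣ t - l := by
      have h3 : l % 3 ≠ 0 := by
        intro h
        have := (Nat.prime_dvd_prime_iff_eq Nat.prime_three hl).1 (Nat.dvd_of_mod_eq_zero h)
        omega
      rcases (show l % 3 = 1 ∨ l % 3 = 2 by omega) with h | h
      · obtain ⟨c, hc⟩ : ∃ c : ℤ, (l : ℤ) = 3 * c + 1 := ⟨(l : ℤ) / 3, by omega⟩
        have h4 : (l : ℤ) * t = 3 * (c * t) + t := by rw [hc]; ring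
        generalize c * t = u at h4
        omega
      · obtain ⟨c, hc⟩ : ∃ c : ℤ, (l : ℤ) = 3 * c + 2 := ⟨(l : ℤ) / 3, by omega⟩
        have h4 : (l : ℤ) * t = 3 * (c * t) + 2 * t := by rw [hc]; ring
        generalize c * t = u at h4
        omega
    have hx : (z + 1 + 24 * (b : ℂ)) / l = (z + 24 * (b' : ℂ)) / l + (t : ℂ) := by
      have ht' : 24 * (b : ℂ) + 1 - 24 * b' = l * t := by exact_mod_cast ht
      field_simp
      linear_combination ht'
    rw [hx, hE t, HT_exp t l htl, ← hW, mul_div_mul_left _ _ hW0]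

end Pool.Agent.EP
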