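import Pool.Agent.helper7.EP.SpecA

/-!
# Project ep:, module PRD: the coefficients of `f^(2^a) * vvx^3`.
-/

set_option autoImplicit false

open Finset PowerSeries

noncomputable section

namespace Pool.Agent.EP

theorem PRD (hFRO : FRO_stmt) (hVTH : VTH_stmt) : PRD_stmt := by
  classical
  intro a k f hf M
  have h2a : (0 : ℤ) < 2 ^ a := by positivity
  rw [HahnSeries.coeff_mul]
  symm
  refine Finset.sum_bij_ne_zero (fun (u : ℕ) _ _ => ((M - 3 * (u : ℤ) ^ 2, 3 * (u : ℤ) ^ 2) : ℤ × ℤ))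
    ?_ ?_ ?_ ?_
  · intro u hu hne
    rw [us, Finset.mem_filter] at hu
    rw [Finset.mem_addAntidiagonal]
    refine ⟨?_, ?_, ?_⟩
    · rw [HahnSeries.mem_support, hFRO, if_pos hu.2.2]
      exact hne
    · rw [HahnSeries.mem_support, hVTH, tht, if_pos ⟨u, hu.2.1, rfl⟩]
      exact one_ne_zero
    · ring
  · intro u hu _ u' hu' _ h
    have h1 : 3 * (u : ℤ) ^ 2 = 3 * (u' : ℤ) ^ 2 := (Prod.ext_iff.1 h).2
    have h2 : u ^ 2 = u' ^ 2 := by
      have : (u : ℤ) ^ 2 = (u' : ℤ) ^ 2 := by linarith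
      exact_mod_cast this
    exact Nat.pow_left_injective (n := 2) (by norm_num) h2
  · rintro ⟨i, j⟩ hij hne
    rw [Finset.mem_addAntidiagonal] at hij
    obtain ⟨hi, hj, hs⟩ := hij
    rw [HahnSeries.mem_support, hFRO] at hi
    rw [HahnSeries.mem_support, hVTH, tht] at hj
    simp only at hs hi hj
    have hj' : ∃ u : ℕ, u % 2 = 1 ∧ j = 3 * (u : ℤ) ^ 2 := by
      by_contra h
      rw [if_neg h] at hj
      exact hj rfl
    obtain ⟨u, hu, rfl⟩ := hj'
    have hdvd : (2 ^ a : ℤ) ∣ i := by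
      by_contra h
      rw [if_neg h] at hi
      exact hi rfl
    rw [if_pos hdvd] at hi
    have hi2 : i = M - 3 * (u : ℤ) ^ 2 := by linarith
    subst hi2
    obtain ⟨c, hc⟩ := hdvd
    have hcf : f.coeff c ≠ 0 := by
      rw [hc, Int.mul_ediv_cancel_left _ h2a.ne'] at hi
      exact hi
    have hck : -(k : ℤ) ≤ c := by
      by_contra h
      exact hcf (hf c (not_le.1 h))
    have hle : 3 * (u : ℤ) ^ 2 ≤ M + k * 2 ^ a := by nlinarith
    have hu1 : (u : ℤ) ≤ 3 * (u : ℤ) ^ 2 := by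
      have h1 : (0 : ℤ) ≤ u := Int.natCast_nonneg u
      have h2 : (1 : ℤ) ≤ u := by
        have : 1 ≤ u := by omega
        exact_mod_cast this
      nlinarith
    refine ⟨u, ?_, ?_, rfl⟩
    · rw [us, Finset.mem_filter, Finset.mem_range]
      refine ⟨?_, hu, ⟨c, hc⟩⟩
      omega
    · exact hi
  · intro u hu hne
    rw [us, Finset.mem_filter] at hu
    simp only
    rw [hFRO, if_pos hu.2.2, hVTH, tht, if_pos ⟨u, hu.2.1, rfl⟩, mul_one]

end Pool.Agent.EP
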