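import Pool.Agent.helper7.EP.SpecA

/-!
# Project ep:, module VTH: the cube of `vvx`.
-/

set_option autoImplicit false

open Finset PowerSeries

noncomputable section

namespace Pool.Agent.EP

theorem VTH_tri (r : ℕ) : 24 * tri r + 3 = 3 * (2 * r + 1) ^ 2 := by
  have h : 2 * tri r = r * (r + 1) := by
    unfold tri
    exact Nat.mul_div_cancel' (Nat.even_mul_succ_self r).two_dvd
  nlinarith

theorem VTH_inj {r s : ℕ} (h : tri r = tri s) : r = s := by
  have h1 := VTH_tri r
  have h2 := VTH_tri s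
  rw [h, h2] at h1
  have h3 : (2 * s + 1) ^ 2 = (2 * r + 1) ^ 2 := by omega
  have h4 : 2 * s + 1 = 2 * r + 1 := Nat.pow_left_injective (n := 2) (by norm_num) h3
  omega

theorem VTH_le (r : ℕ) : r ≤ tri r := by
  have h : 2 * tri r = r * (r + 1) := by
    unfold tri
    exact Nat.mul_div_cancel' (Nat.even_mul_succ_self r).two_dvd
  rcases Nat.eq_zero_or_pos r with rfl | hr
  · exact Nat.zero_le _
  · have : r * 2 ≤ r * (r + 1) := Nat.mul_le_mul_left r (by omega)
    omega

open Classical in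
theorem VTH_E (k : ℕ) : PowerSeries.coeff k (helper81.EE ^ 3) =
    if ∃ r : ℕ, tri r = k then (1 : ZMod 2) else 0 := by
  rw [(helper81.EE_cube_cg k).coeff_eq (show k < 2 * k + 1 by omega), map_sum]
  by_cases h : ∃ r : ℕ, tri r = k
  · rw [if_pos h]
    obtain ⟨r, hr⟩ := h
    rw [Finset.sum_eq_single r]
    · rw [PowerSeries.coeff_X_pow, if_pos]
      exact hr.symm
    · intro s _ hs
      rw [PowerSeries.coeff_X_pow, if_neg]
      intro h2
      apply hs
      apply VTH_inj
      rw [hr]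
      exact h2.symm
    · intro hr2
      exfalso
      apply hr2
      rw [Finset.mem_range]
      have := VTH_le r
      omega
  · rw [if_neg h]
    apply Finset.sum_eq_zero
    intro s _
    rw [PowerSeries.coeff_X_pow, if_neg]
    intro h2
    exact h ⟨s, h2.symm⟩

theorem VTH : VTH_stmt := by
  classical
  intro N
  have h1 : vvx ^ 3 = HahnSeries.single (3 : ℤ) (1 : ZMod 2) *
      HahnSeries.ofPowerSeries ℤ (ZMod 2)
        (PowerSeries.expand 24 (by norm_num) (helper81.EE ^ 3)) := by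
    have e1 : HahnSeries.single (1 : ℤ) (1 : ZMod 2) ^ 3 =
        HahnSeries.single (3 : ℤ) (1 : ZMod 2) := by
      rw [HahnSeries.single_pow]
      simp
    have e2 : HahnSeries.ofPowerSeries ℤ (ZMod 2)
        (PowerSeries.expand 24 (by norm_num) (helper81.EE ^ 3)) =
        HahnSeries.ofPowerSeries ℤ (ZMod 2)
          (PowerSeries.expand 24 (by norm_num) helper81.EE) ^ 3 := by
      rw [map_pow (PowerSeries.expand 24 (by norm_num)), map_pow]
    unfold vvx
    rw [mul_pow, e1, e2]
  have h2 : (vvx ^ 3).coeff N = (HahnSeries.ofPowerSeries ℤ (ZMod 2)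
        (PowerSeries.expand 24 (by norm_num) (helper81.EE ^ 3))).coeff (N - 3) := by
    have h3 := HahnSeries.coeff_single_mul_add (r := (1 : ZMod 2))
      (x := HahnSeries.ofPowerSeries ℤ (ZMod 2)
        (PowerSeries.expand 24 (by norm_num) (helper81.EE ^ 3))) (a := N - 3) (b := (3 : ℤ))
    rw [one_mul, sub_add_cancel] at h3
    rw [h1, h3]
  rw [h2, PowerSeries.coeff_coe, PowerSeries.coeff_expand]
  unfold tht
  by_cases h0 : N - 3 < 0
  · rw [if_pos h0, if_neg]
    rintro ⟨u, hu, h⟩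
    have hu1 : (1 : ℤ) ≤ u := by
      have : 1 ≤ u := by omega
      exact_mod_cast this
    nlinarith
  · rw [if_neg h0]
    obtain ⟨k, hk⟩ : ∃ k : ℕ, N - 3 = k := ⟨(N - 3).toNat, by omega⟩
    rw [hk, Int.natAbs_natCast]
    by_cases h5 : 24 ∣ k
    · obtain ⟨j, rfl⟩ := h5
      rw [if_pos (Dvd.intro _ rfl), Nat.mul_div_cancel_left _ (by norm_num), VTH_E]
      apply if_congr _ rfl rfl
      constructor
      · rintro ⟨r, hr⟩
        refine ⟨2 * r + 1, by omega, ?_⟩
        have h6 := VTH_tri r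
        rw [hr] at h6
        have h7 : (24 * (j : ℤ) + 3) = 3 * ((2 * r + 1 : ℕ) : ℤ) ^ 2 := by exact_mod_cast h6
        push_cast at hk h7 ⊢
        linarith
      · rintro ⟨u, hu, h⟩
        obtain ⟨r, rfl⟩ : ∃ r, u = 2 * r + 1 := ⟨u / 2, by omega⟩
        refine ⟨r, ?_⟩
        have h6 := VTH_tri r
        have h7 : (24 * (tri r : ℤ) + 3) = 3 * ((2 * r + 1 : ℕ) : ℤ) ^ 2 := by exact_mod_cast h6
        push_cast at hk h7 h
        have h8 : (tri r : ℤ) = j := by linarith
        exact_mod_cast h8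
    · rw [if_neg h5, if_neg]
      rintro ⟨u, hu, h⟩
      obtain ⟨r, rfl⟩ : ∃ r, u = 2 * r + 1 := ⟨u / 2, by omega⟩
      have h6 := VTH_tri r
      have h7 : (24 * (tri r : ℤ) + 3) = 3 * ((2 * r + 1 : ℕ) : ℤ) ^ 2 := by exact_mod_cast h6
      apply h5
      refine ⟨tri r, ?_⟩
      push_cast at hk h7 h
      have h8 : (k : ℤ) = 24 * tri r := by linarith
      exact_mod_cast h8

end Pool.Agent.EP
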