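import Pool.Agent.helper99.EP.Spec

/-!
# Project EP (MP_bf63dc_nt): from the dominating family to true cases
-/

set_option autoImplicit false

namespace Pool.Agent.EP

open Finset Pool.Agent.helper85.FC Pool.Agent.helper11.TX Pool.Agent.AT

/-- a subset of `m` forms which works for infinitely many `μ` -/
theorem FORM_sub (m : ℕ) (V : Finset (ℕ × ℤ)) (P : ℕ → Prop) (Q : ℕ → ℕ × ℤ → Prop) [∀ μ, DecidablePred (Q μ)]
    (h : ∀ N : ℕ, ∃ μ : ℕ, N ≤ μ ∧ P μ ∧ m ≤ #{v ∈ V | Q μ v}) :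
    ∃ W : Finset (ℕ × ℤ), W ⊆ V ∧ #W = m ∧ {μ : ℕ | P μ ∧ ∀ v ∈ W, Q μ v}.Infinite := by
  by_contra hcon
  push Not at hcon
  -- all the sets are finite
  have h1 : (⋃ W ∈ (V.powerset.filter fun W => #W = m), {μ : ℕ | P μ ∧ ∀ v ∈ W, Q μ v}).Finite := by
    refine Set.Finite.biUnion (Finset.finite_toSet _) fun W hW => ?_
    rw [mem_coe, mem_filter, mem_powerset] at hW
    exact hcon W hW.1 hW.2
  obtain ⟨B, hB⟩ := h1.bddAbove
  obtain ⟨μ, hμ, hP, hm⟩ := h (B + 1)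
  obtain ⟨W, hW, hWm⟩ := exists_subset_card_eq hm
  have h3 : μ ∈ ⋃ W ∈ (V.powerset.filter fun W => #W = m), {μ : ℕ | P μ ∧ ∀ v ∈ W, Q μ v} := by
    refine Set.mem_biUnion (x := W) ?_ ?_
    · rw [mem_coe, mem_filter, mem_powerset]
      exact ⟨hW.trans (filter_subset _ _), hWm⟩
    · refine ⟨hP, fun v hv => ?_⟩
      have := hW hv
      rw [mem_filter] at this
      exact this.2
  have := hB h3
  omega

/-- two forms which are prime simultaneously and different for infinitely many `μ` give a true case -/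
theorem FORM_tc (hTRC : Pool.Agent.AL.TRC_stmt) (s b : ℕ) (t c : ℤ) (hs : 0 < s) (hb : 0 < b) (hbc : IsCoprime (b : ℤ) c)
    (h : {μ : ℕ | ((b : ℤ) * μ + c).toNat.Prime ∧ ((s : ℤ) * μ + t).toNat.Prime ∧ (s : ℤ) * μ + t ≠ b * μ + c}.Infinite) :
    TrueCase (s / Nat.gcd s b) (b / Nat.gcd s b) (((s : ℤ) * c - b * t) / (Nat.gcd s b : ℕ)) := by
  set g := Nat.gcd s b with hg
  have hg0 : 0 < g := Nat.gcd_pos_of_pos_left _ hs
  obtain ⟨a', ha'⟩ : g ∣ s := Nat.gcd_dvd_left s b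
  obtain ⟨b', hb'⟩ : g ∣ b := Nat.gcd_dvd_right s b
  have ha0 : 0 < a' := by
    rcases Nat.eq_zero_or_pos a' with h0 | h0
    · rw [h0, mul_zero] at ha'
      omega
    · exact h0
  have hb0 : 0 < b' := by
    rcases Nat.eq_zero_or_pos b' with h0 | h0
    · rw [h0, mul_zero] at hb'
      omega
    · exact h0
  have hcop : Nat.Coprime a' b' := by
    have h1 : Nat.gcd (g * a') (g * b') = g := by rw [← ha', ← hb']
    rw [Nat.gcd_mul_left] at h1
    have h2 : g * Nat.gcd a' b' = g * 1 := by rw [h1, mul_one]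
    exact Nat.eq_of_mul_eq_mul_left hg0 h2
  have e1 : s / g = a' := by
    rw [ha']
    exact Nat.mul_div_cancel_left a' hg0
  have e2 : b / g = b' := by
    rw [hb']
    exact Nat.mul_div_cancel_left b' hg0
  have hgz : (g : ℤ) ≠ 0 := by exact_mod_cast hg0.ne'
  have e3 : ((s : ℤ) * c - b * t) / (g : ℕ) = a' * c - b' * t := by
    have ea : (s : ℤ) = g * a' := by exact_mod_cast ha'
    have eb : (b : ℤ) = g * b' := by exact_mod_cast hb'
    rw [ea, eb, show (g : ℤ) * a' * c - g * b' * t = g * (a' * c - b' * t) by ring]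
    exact Int.mul_ediv_cancel_left _ hgz
  rw [e1, e2, e3]
  refine hTRC g a' b' c t hg0 ha0 hb0 hcop ?_ ?_
  · intro hcon
    -- then `b' = 1` and the values are proportional
    have h1 : (b' : ℤ) ∣ a' * c := ⟨t, hcon⟩
    have h2 : IsCoprime (b' : ℤ) (a' : ℤ) := Nat.isCoprime_iff_coprime.2 hcop.symm
    have h3 : (b' : ℤ) ∣ c := h2.dvd_of_dvd_mul_left h1
    have h4 : (b' : ℤ) ∣ b := by
      have : b' ∣ b := ⟨g, by rw [hb']; ring⟩
      exact_mod_cast this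
    have h5 : IsUnit (b' : ℤ) := hbc.isUnit_of_dvd' h4 h3
    have h6 : b' = 1 := by
      have := Int.isUnit_iff.1 h5
      rcases this with h | h
      · exact_mod_cast h
      · have : (0 : ℤ) < b' := by exact_mod_cast hb0
        omega
    obtain ⟨μ, hμ⟩ := h.nonempty
    obtain ⟨hp, hq, hne⟩ := hμ
    have ea : (s : ℤ) = g * a' := by exact_mod_cast ha'
    have eb : (b : ℤ) = g := by
      rw [h6, mul_one] at hb'
      exact_mod_cast hb'
    have hct : t = a' * c := by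
      rw [h6] at hcon
      push_cast at hcon
      linarith
    have e4 : (s : ℤ) * μ + t = a' * (b * μ + c) := by
      rw [ea, hct, eb]
      ring
    -- a prime which is `a'` times a prime
    have hpos : 0 < (b : ℤ) * μ + c := by
      by_contra hc
      have : ((b : ℤ) * μ + c).toNat = 0 := Int.toNat_of_nonpos (by linarith)
      rw [this] at hp
      exact Nat.not_prime_zero hp
    obtain ⟨p, hpe⟩ : ∃ p : ℕ, (b : ℤ) * μ + c = p := ⟨_, (Int.toNat_of_nonneg hpos.le).symm⟩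
    rw [hpe] at hp e4 hne
    rw [e4, show (a' : ℤ) * (p : ℤ) = ((a' * p : ℕ) : ℤ) by push_cast; ring] at hq
    rw [Int.toNat_natCast] at hp hq
    rcases Nat.prime_mul_iff.1 hq with ⟨-, h⟩ | ⟨-, h⟩
    · rw [h] at hp
      exact Nat.not_prime_one hp
    · apply hne
      rw [e4, h]
      push_cast
      ring
  · refine h.mono fun μ hμ => ?_
    obtain ⟨hp, hq, -⟩ := hμ
    refine ⟨?_, ?_⟩
    · show (((g * b' : ℕ) : ℤ) * μ + c).toNat.Prime
      rw [← hb']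
      exact hp
    · show (((g * a' : ℕ) : ℤ) * μ + t).toNat.Prime
      rw [← ha']
      exact hq

/-- **Every form.** -/
theorem FORM (h : EvC) (hTRC : Pool.Agent.AL.TRC_stmt) (m : ℕ) (hm : 1 ≤ m) : ∃ V : Finset (ℕ × ℤ), (∀ v ∈ V, 0 < v.1) ∧
    ∀ (b : ℕ) (c : ℤ), 1 ≤ b → IsCoprime (b : ℤ) c → ∃ W : Finset (ℕ × ℤ), W ⊆ V ∧ #W = m ∧
      {μ : ℕ | ((b : ℤ) * μ + c).toNat.Prime ∧ ∀ v ∈ W, ((v.1 : ℤ) * μ + v.2).toNat.Prime ∧ (v.1 : ℤ) * μ + v.2 ≠ b * μ + c}.Infinite ∧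
      ∀ v ∈ W, TrueCase (v.1 / Nat.gcd v.1 b) (b / Nat.gcd v.1 b) (((v.1 : ℤ) * c - b * v.2) / (Nat.gcd v.1 b : ℕ)) := by
  obtain ⟨V, hV, H⟩ := h m hm
  refine ⟨V, hV, fun b c hb hbc => ?_⟩
  obtain ⟨W, hWV, hWm, hinf⟩ := FORM_sub m V (fun μ => ((b : ℤ) * μ + c).toNat.Prime)
    (fun μ v => ((v.1 : ℤ) * μ + v.2).toNat.Prime ∧ (v.1 : ℤ) * μ + v.2 ≠ b * μ + c) (by
      intro N
      obtain ⟨μ, h1, h2, h3⟩ := H b c hb hbc N
      refine ⟨μ, h1, h2, h3.trans (card_le_card fun v hv => ?_)⟩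
      rw [mem_filter] at hv ⊢
      exact hv)
  refine ⟨W, hWV, hWm, hinf, fun v hv => ?_⟩
  refine FORM_tc hTRC v.1 b v.2 c (hV v (hWV hv)) hb hbc (hinf.mono fun μ hμ => ?_)
  exact ⟨hμ.1, (hμ.2 v hv).1, (hμ.2 v hv).2⟩

end Pool.Agent.EP
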