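import Pool.Agent.helper99.EP.Spec

/-!
# Project EP (MP_bf63dc_nt): the top, with `k` factors
-/

set_option autoImplicit false

namespace Pool.Agent.EP

open Finset Pool.Agent.helper85.FC Pool.Agent.helper11.TX Pool.Agent.AT

/-- monotonicity of `UD` -/
lemma TOP_mono {δ δ' : ℝ} {a b : ℕ} (h : δ ≤ δ') (hU : UD δ' a b) : UD δ a b := by
  intro X₀
  obtain ⟨X, hX, h1⟩ := hU X₀
  refine ⟨X, hX, le_trans (mul_le_mul_of_nonneg_right h ?_) h1⟩
  unfold Ms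
  refine sum_nonneg fun c _ => ?_
  unfold SS
  refine prod_nonneg fun l hl => ?_
  rw [mem_filter, Nat.mem_primeFactors] at hl
  have h2 : 3 ≤ l := by
    have := hl.1.1.two_le
    have := hl.2
    omega
  have h3 : (3 : ℝ) ≤ l := by exact_mod_cast h2
  apply div_nonneg <;> linarith

/-- `k` factors suffice for a share of `1/3 - 2/(3k) - ε` -/
theorem TOPK (hMXC : MXC_stmt) (hUQS : UQS_stmt) (hUQC : UQC_stmt) (hDF : DFk (1 / 3)) (k : ℕ) (ε : ℝ) (hk : 3 ≤ k)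
    (hε : 0 < ε) : ∃ S : Finset ℕ, #S ≤ k ∧ (∀ s ∈ S, 1 ≤ s) ∧ ∀ a b : ℕ, 1 ≤ a → 1 ≤ b →
      ∃ u ∈ S, UQ (1 / 3 - 2 / (3 * k) - ε) (u * a) b := by
  have hk3 : (3 : ℝ) ≤ k := by exact_mod_cast hk
  have hkpos : (0 : ℝ) < k := by linarith
  -- the share used in the proof
  obtain ⟨δ, hδ0, hδ1, hδ2⟩ : ∃ δ : ℝ, 0 ≤ δ ∧ 1 / 3 - 2 / (3 * k) - ε ≤ δ ∧ δ < 1 / 3 - 2 / (3 * k) := by
    have h1 : (0 : ℝ) < 1 / 3 - 2 / (3 * k) := by
      rw [sub_pos, div_lt_div_iff₀ (by positivity) (by norm_num)]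
      linarith
    refine ⟨max (1 / 3 - 2 / (3 * k) - ε) 0, le_max_right _ _, le_max_left _ _, max_lt (by linarith) h1⟩
  have hδ3 : δ < 1 / 3 := by
    have : (0 : ℝ) ≤ 2 / (3 * k) := by positivity
    linarith
  obtain ⟨S, hS1, hS2, hS3⟩ := hMXC k (UQ δ) (fun s t h => hUQS.1 δ s t h) (fun s hs => hUQS.2.2 hDF δ hδ0 hδ3 s hs)
    (fun c s t hc _ _ h => (hUQS.2.1 δ c s t hc).1 h) (fun X hX hkX => by
      obtain ⟨Y, hYX, hY⟩ := exists_subset_card_eq (s := X) (n := k + 1) (by omega)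
      have h1 : 1 + ((#Y : ℝ) - 1) * δ < (#Y : ℝ) / 3 := by
        rw [hY]
        push_cast
        have h2 : (k : ℝ) * δ < k * (1 / 3 - 2 / (3 * k)) := mul_lt_mul_of_pos_left hδ2 hkpos
        have h3 : (k : ℝ) * (1 / 3 - 2 / (3 * k)) = k / 3 - 2 / 3 := by
          field_simp
        rw [h3] at h2
        have h4 : ((k : ℝ) + 1 - 1) * δ = k * δ := by ring
        rw [h4]
        linarith
      obtain ⟨s, hs, t, ht, hne, h2⟩ := hUQC hDF δ Y hδ0 (fun s hs => hX s (hYX hs)) h1 (by omega)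
      exact ⟨s, hYX hs, t, hYX ht, hne, h2⟩)
  refine ⟨S, hS1, hS2, fun a b ha hb => ?_⟩
  obtain ⟨u, hu, h⟩ := hS3 a b ha hb
  exact ⟨u, hu, TOP_mono hδ1 h⟩

/-- bounded gaps for all pairs, from `EvD` -/
theorem TOPG (h : EvD) : ∃ A C : ℕ, ∀ a b : ℕ, 1 ≤ a → 1 ≤ b → ∃ u : ℕ, 1 ≤ u ∧ u ≤ A ∧
    {pq : ℕ × ℕ | pq.1.Prime ∧ pq.2.Prime ∧ 0 < |((u * a : ℕ) : ℤ) * pq.1 - b * pq.2| ∧
      |((u * a : ℕ) : ℤ) * pq.1 - b * pq.2| ≤ C * (a + b)}.Infinite := by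
  obtain ⟨V, C, hV, H⟩ := h
  -- bounds for the entries of the forms in `V`
  obtain ⟨A, hA⟩ : ∃ A : ℕ, ∀ v ∈ V, v.1 ≤ A ∧ |v.2| ≤ A := by
    refine ⟨∑ v ∈ V, (v.1 + v.2.natAbs), fun v hv => ?_⟩
    have h1 : v.1 + v.2.natAbs ≤ ∑ v ∈ V, (v.1 + v.2.natAbs) :=
      single_le_sum (f := fun v : ℕ × ℤ => v.1 + v.2.natAbs) (fun _ _ => Nat.zero_le _) hv
    refine ⟨by omega, ?_⟩
    have h2 : |v.2| = (v.2.natAbs : ℤ) := (Int.natCast_natAbs v.2).symm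
    rw [h2]
    exact_mod_cast (by omega : v.2.natAbs ≤ ∑ v ∈ V, (v.1 + v.2.natAbs))
  refine ⟨A, A * C + A, fun a b ha hb => ?_⟩
  set g := Nat.gcd a b with hg
  have hg0 : 0 < g := Nat.gcd_pos_of_pos_left _ ha
  obtain ⟨a', ha'⟩ : g ∣ a := Nat.gcd_dvd_left a b
  obtain ⟨b', hb'⟩ : g ∣ b := Nat.gcd_dvd_right a b
  have ha0 : 1 ≤ a' := by
    rcases Nat.eq_zero_or_pos a' with h0 | h0
    · rw [h0, mul_zero] at ha'
      omega
    · exact h0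
  have hb0 : 1 ≤ b' := by
    rcases Nat.eq_zero_or_pos b' with h0 | h0
    · rw [h0, mul_zero] at hb'
      omega
    · exact h0
  have hcop : Nat.Coprime a' b' := by
    have h1 : Nat.gcd (g * a') (g * b') = g := by rw [← ha', ← hb']
    rw [Nat.gcd_mul_left] at h1
    have h2 : g * Nat.gcd a' b' = g * 1 := by rw [h1, mul_one]
    exact Nat.eq_of_mul_eq_mul_left hg0 h2
  obtain ⟨c, hc1, hc2, v, hv, hne, hinf⟩ := H a' b' ha0 hb0 hcop 0
  have hA1 := hA v hv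
  have hv1 := hV v hv
  refine ⟨v.1, hv1, hA1.1, hinf.mono ?_⟩
  rintro ⟨p, q⟩ ⟨hp, hq, h1⟩
  refine ⟨hp, hq, ?_⟩
  have e : ((v.1 * a : ℕ) : ℤ) * p - b * q = g * (v.1 * c - b' * v.2) := by
    rw [← h1]
    have ea : (a : ℤ) = g * a' := by exact_mod_cast ha'
    have eb : (b : ℤ) = g * b' := by exact_mod_cast hb'
    push_cast
    rw [ea, eb]
    ring
  have hgz : (0 : ℤ) < g := by exact_mod_cast hg0
  show 0 < |((v.1 * a : ℕ) : ℤ) * p - b * q| ∧ |((v.1 * a : ℕ) : ℤ) * p - b * q| ≤ ((A * C + A : ℕ) : ℤ) * (a + b)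
  rw [e]
  constructor
  · exact abs_pos.2 (mul_ne_zero hgz.ne' hne)
  · rw [abs_mul, abs_of_pos hgz]
    have hs0 : (0 : ℤ) ≤ v.1 := by positivity
    have hsA : (v.1 : ℤ) ≤ A := by exact_mod_cast hA1.1
    have hb'0 : (0 : ℤ) ≤ b' := by positivity
    have ha'0 : (0 : ℤ) ≤ a' := by positivity
    have hC0 : (0 : ℤ) ≤ C := by positivity
    have hAA : (0 : ℤ) ≤ A := by positivity
    have h3 : |(v.1 : ℤ) * c - b' * v.2| ≤ A * (C * (a' + b')) + b' * A := by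
      refine (abs_sub _ _).trans ?_
      rw [abs_mul, abs_mul, abs_of_nonneg hs0, abs_of_nonneg hb'0]
      have hc3 : |c| ≤ C * (a' + b') := by
        rw [abs_of_pos hc1]
        linarith
      exact add_le_add (mul_le_mul hsA hc3 (abs_nonneg _) hAA) (mul_le_mul_of_nonneg_left hA1.2 hb'0)
    have h4 : (A : ℤ) * (C * (a' + b')) + b' * A ≤ (A * C + A) * (a' + b') := by
      nlinarith [mul_nonneg hAA ha'0]
    have ea : (a : ℤ) = g * a' := by exact_mod_cast ha'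
    have eb : (b : ℤ) = g * b' := by exact_mod_cast hb'
    calc (g : ℤ) * |(v.1 : ℤ) * c - b' * v.2| ≤ g * ((A * C + A) * (a' + b')) :=
          mul_le_mul_of_nonneg_left (h3.trans h4) hgz.le
      _ = ((A * C + A : ℕ) : ℤ) * (a + b) := by
          push_cast
          rw [ea, eb]
          ring

end Pool.Agent.EP
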