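import Pool.Agent.helper99.EP.Spec

/-!
# Project EP (MP_bf63dc_nt): bounded gaps for all pairs, everywhere
-/

set_option autoImplicit false

namespace Pool.Agent.EP

open Finset Pool.Agent.helper85.FC Pool.Agent.helper11.TX Pool.Agent.AT

/-- bounded gaps for all pairs, around every integer `x` -/
theorem TOPW (h : EvD) : ∃ A C : ℕ, ∀ a b : ℕ, 1 ≤ a → 1 ≤ b → ∀ x : ℤ, ∃ u : ℕ, 1 ≤ u ∧ u ≤ A ∧
    ∃ c : ℤ, c ≠ 0 ∧ |c - u * x| ≤ C * (a + b) ∧
      {pq : ℕ × ℕ | pq.1.Prime ∧ pq.2.Prime ∧ ((u * a : ℕ) : ℤ) * pq.1 - b * pq.2 = c}.Infinite := by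
  obtain ⟨V, C, hV, H⟩ := h
  -- bounds for the entries of the forms in `V`
  obtain ⟨A, hA⟩ : ∃ A : ℕ, ∀ v ∈ V, v.1 ≤ A ∧ |v.2| ≤ A := by
    refine ⟨∑ v ∈ V, (v.1 + v.2.natAbs), fun v hv => ?_⟩
    have h1 : v.1 + v.2.natAbs ≤ ∑ v ∈ V, (v.1 + v.2.natAbs) :=
      single_le_sum (f := fun v : ℕ × ℤ => v.1 + v.2.natAbs) (fun _ _ => Nat.zero_le _) hv
    refine ⟨by omega, ?_⟩
    have h2 : |v.2| = (v.2.natAbs : ℤ) := (Int.natCast_natAbs v.2).symm
    rw [h2]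
    exact_mod_cast (by omega : v.2.natAbs ≤ ∑ v ∈ V, (v.1 + v.2.natAbs))
  refine ⟨A, A * C + 2 * A, fun a b ha hb x => ?_⟩
  set g := Nat.gcd a b with hg
  have hg0 : 0 < g := Nat.gcd_pos_of_pos_left _ ha
  obtain ⟨a', ha'⟩ : g ∣ a := Nat.gcd_dvd_left a b
  obtain ⟨b', hb'⟩ : g ∣ b := Nat.gcd_dvd_right a b
  have ha0 : 1 ≤ a' := by
    rcases Nat.eq_zero_or_pos a' with h0 | h0
    · rw [h0, mul_zero] at ha'
      omega
    · exact h0
  have hb0 : 1 ≤ b' := by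
    rcases Nat.eq_zero_or_pos b' with h0 | h0
    · rw [h0, mul_zero] at hb'
      omega
    · exact h0
  have hcop : Nat.Coprime a' b' := by
    have h1 : Nat.gcd (g * a') (g * b') = g := by rw [← ha', ← hb']
    rw [Nat.gcd_mul_left] at h1
    have h2 : g * Nat.gcd a' b' = g * 1 := by rw [h1, mul_one]
    exact Nat.eq_of_mul_eq_mul_left hg0 h2
  have hgz : (0 : ℤ) < g := by exact_mod_cast hg0
  -- `x = g x' + r`
  obtain ⟨x', r, hx, hr0, hrg⟩ : ∃ x' r : ℤ, x = g * x' + r ∧ 0 ≤ r ∧ r < g :=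
    ⟨x / g, x % g, (Int.mul_ediv_add_emod x g).symm, Int.emod_nonneg _ hgz.ne', Int.emod_lt_of_pos _ hgz⟩
  obtain ⟨c, hc1, hc2, v, hv, hne, hinf⟩ := H a' b' ha0 hb0 hcop x'
  have hA1 := hA v hv
  have hv1 := hV v hv
  refine ⟨v.1, hv1, hA1.1, g * (v.1 * c - b' * v.2), mul_ne_zero hgz.ne' hne, ?_, hinf.mono ?_⟩
  · have hs0 : (0 : ℤ) ≤ v.1 := by positivity
    have hsA : (v.1 : ℤ) ≤ A := by exact_mod_cast hA1.1
    have hb'0 : (0 : ℤ) ≤ b' := by positivity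
    have ha'0 : (0 : ℤ) ≤ a' := by positivity
    have hb'1 : (1 : ℤ) ≤ b' := by exact_mod_cast hb0
    have ha'1 : (1 : ℤ) ≤ a' := by exact_mod_cast ha0
    have hC0 : (0 : ℤ) ≤ C := by positivity
    have hAA : (0 : ℤ) ≤ A := by positivity
    have e : (g : ℤ) * (v.1 * c - b' * v.2) - v.1 * x = g * (v.1 * (c - x')) - g * (b' * v.2) - v.1 * r := by
      rw [hx]
      ring
    have ea : (a : ℤ) = g * a' := by exact_mod_cast ha'
    have eb : (b : ℤ) = g * b' := by exact_mod_cast hb'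
    rw [e]
    have h1 : |(g : ℤ) * (v.1 * (c - x'))| ≤ g * (A * (C * (a' + b'))) := by
      rw [abs_mul, abs_mul, abs_of_pos hgz, abs_of_nonneg hs0]
      refine mul_le_mul_of_nonneg_left (mul_le_mul hsA ?_ (abs_nonneg _) hAA) hgz.le
      rw [abs_of_pos (by linarith)]
      linarith
    have h2 : |(g : ℤ) * (b' * v.2)| ≤ g * (b' * A) := by
      rw [abs_mul, abs_mul, abs_of_pos hgz, abs_of_nonneg hb'0]
      exact mul_le_mul_of_nonneg_left (mul_le_mul_of_nonneg_left hA1.2 hb'0) hgz.le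
    have h3 : |(v.1 : ℤ) * r| ≤ A * g := by
      rw [abs_mul, abs_of_nonneg hs0, abs_of_nonneg hr0]
      exact mul_le_mul hsA hrg.le hr0 hAA
    have h4 : |(g : ℤ) * (v.1 * (c - x')) - g * (b' * v.2) - v.1 * r| ≤
        g * (A * (C * (a' + b'))) + g * (b' * A) + A * g :=
      (abs_sub _ _).trans (add_le_add ((abs_sub _ _).trans (add_le_add h1 h2)) h3)
    refine h4.trans ?_
    push_cast
    rw [ea, eb]
    have h5 : (g : ℤ) * (b' * A) ≤ g * (A * (a' + b')) := by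
      refine mul_le_mul_of_nonneg_left ?_ hgz.le
      nlinarith [mul_nonneg hAA ha'0]
    have h6 : (A : ℤ) * g ≤ g * (A * (a' + b')) := by
      rw [mul_comm (A : ℤ) g]
      refine mul_le_mul_of_nonneg_left ?_ hgz.le
      nlinarith [mul_nonneg hAA ha'0, mul_nonneg hAA hb'0]
    calc (g : ℤ) * (A * (C * (a' + b'))) + g * (b' * A) + A * g ≤
        g * (A * (C * (a' + b'))) + g * (A * (a' + b')) + g * (A * (a' + b')) := by linarith
      _ = ((A : ℤ) * C + 2 * A) * (g * a' + g * b') := by ring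
  · rintro ⟨p, q⟩ ⟨hp, hq, h1⟩
    refine ⟨hp, hq, ?_⟩
    show ((v.1 * a : ℕ) : ℤ) * p - b * q = g * (v.1 * c - b' * v.2)
    have h2 : ((v.1 * a' : ℕ) : ℤ) * p - b' * q = v.1 * c - b' * v.2 := h1
    rw [← h2]
    have ea : (a : ℤ) = g * a' := by exact_mod_cast ha'
    have eb : (b : ℤ) = g * b' := by exact_mod_cast hb'
    push_cast
    rw [ea, eb]
    ring

end Pool.Agent.EP
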