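import Pool.Agent.helper99.EP.Spec
import Pool.Agent.helper99.EP.Top
import Pool.Agent.helper99.EP.Form
import Pool.Agent.helper99.EP.Win
import Pool.Agent.helper65.EP.GQS
import Pool.Agent.helper74.EP.WDW
import Pool.Agent.helper68.EP.UQS
import Pool.Agent.helper71.EP.MXC
import Pool.Agent.helper40.EP.PW2
import Pool.Agent.helper38.EP.EVA
import Pool.Agent.helper21.EP.FUR
import Pool.Agent.helper88.EP.MXF
import Pool.Agent.helper88.EP.EVC
import Pool.Agent.helper26.EP.EVD
import Pool.Agent.helper10.OM.AllG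
import Pool.Agent.helper38.AT.All
import Pool.Agent.helper11.TX.All3
import Pool.Agent.helper11.MK.Main
import Pool.Agent.helper16.AL.LNV
import Pool.Agent.helper5.AL.OMG
import Pool.Agent.helper96.AL.JAC
import Pool.Agent.helper5.AL.SOL
import Pool.Agent.helper45.AL.TRC

/-!
# Project EP (MP_bf63dc_nt): the assembly, forms and all but `ε`
-/

set_option autoImplicit false

namespace Pool.Agent.EP

open Finset

theorem GQS_all : GQS_stmt := GQS Pool.Agent.OM.GSY

theorem EVA_all : EvA := EVA MXC GQS_all (PW2 GQS_all) Pool.Agent.OM.OMG_all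

theorem MXF_all : MXF_stmt := MXF (FUR Pool.Agent.AL.LNV)

theorem EVC_all : EvC := EVC MXF_all Pool.Agent.AT.FM_all

theorem EVD_all : EvD := EVD MXF_all (Pool.Agent.AL.JAC Pool.Agent.AL.OMG) Pool.Agent.AL.SOL Pool.Agent.AT.FM_all

theorem DF_all : Pool.Agent.helper11.TX.DFk (1 / 3) := Pool.Agent.helper11.TX.DF_of Pool.Agent.helper11.MK.cm4

theorem UQS_all : UQS_stmt := UQS WDW

end Pool.Agent.EP
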