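import Pool.Agent.helper99.EP.Jac
import Pool.Agent.helper99.EP.Form
import Pool.Agent.helper26.EP.EVD
import Pool.Agent.helper88.EP.EVC

/-!
# Project EP (MP_bf63dc_nt): every case `(a, b, c)`, up to a bounded factor and a small shift
-/

set_option autoImplicit false

namespace Pool.Agent.EP

open Finset Pool.Agent.helper85.FC Pool.Agent.OM Pool.Agent.helper11.TX Pool.Agent.AT

open Classical in
/-- for every prime `l` the classes of the `j` such that `l` divides the value of a form of `V` at `μ + j` -/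
theorem CASE_classes (κ : ℕ) (V : Finset (ℕ × ℤ)) (hV : #V ≤ κ) (μ : ℤ) : ∃ B : ℕ → Finset ℤ, (∀ l, #(B l) ≤ κ) ∧
    ∀ l : ℕ, l.Prime → ∀ v ∈ V, ¬ (l : ℤ) ∣ (v.1 : ℤ) → ∀ j : ℤ, (∀ β ∈ B l, ¬ (l : ℤ) ∣ j - β) →
      ¬ (l : ℤ) ∣ (v.1 : ℤ) * (μ + j) + v.2 := by
  let bt : ℕ → ℕ × ℤ → ℤ := fun l v =>
    if hh : ∃ β : ℤ, (l : ℤ) ∣ (v.1 : ℤ) * β - (-(v.1 * μ + v.2)) then hh.choose else 0
  have hbt : ∀ (l : ℕ) (v : ℕ × ℤ), (∃ β : ℤ, (l : ℤ) ∣ (v.1 : ℤ) * β - (-(v.1 * μ + v.2))) →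
      (l : ℤ) ∣ (v.1 : ℤ) * bt l v - (-(v.1 * μ + v.2)) := by
    intro l v hh
    simp only [bt, dif_pos hh]
    exact hh.choose_spec
  refine ⟨fun l => V.image (bt l), fun l => card_image_le.trans hV, ?_⟩
  intro l hl v hv hlv j hj hd
  have hprime : Prime (l : ℤ) := Nat.prime_iff_prime_int.mp hl
  have h1 := hbt l v (EVD_sol hl hlv)
  have h2 : (l : ℤ) ∣ (v.1 : ℤ) * (j - bt l v) := by
    have e : (v.1 : ℤ) * (j - bt l v) = ((v.1 : ℤ) * (μ + j) + v.2) - ((v.1 : ℤ) * bt l v - (-(v.1 * μ + v.2))) := by ring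
    rw [e]
    exact dvd_sub hd h1
  exact hj (bt l v) (mem_image_of_mem _ hv) ((hprime.dvd_or_dvd h2).resolve_left hlv)

/-- **Every case.** -/
theorem CASE (hMXF : MXF_stmt) (hF : ∀ k : ℕ, 1 ≤ k → FMk k) (hSOL : Pool.Agent.AL.SOL_stmt) (hTRC : Pool.Agent.AL.TRC_stmt)
    (m : ℕ) (hm : 1 ≤ m) : ∃ (V : Finset (ℕ × ℤ)) (K : ℕ), (∀ v ∈ V, 0 < v.1) ∧
    ∀ (a b : ℕ) (c : ℤ), 1 ≤ a → 1 ≤ b → Nat.Coprime a b → IsCoprime (b : ℤ) c →
    ∃ j : ℕ, j ≤ K ^ (#a.primeFactors + 1) ∧ ∃ W : Finset (ℕ × ℤ), W ⊆ V ∧ #W = m ∧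
      {pm : ℕ × ℕ | pm.1.Prime ∧ (a : ℤ) * pm.1 - b * pm.2 = c ∧
        ∀ v ∈ W, ((v.1 : ℤ) * (pm.2 + j) + v.2).toNat.Prime ∧ (v.1 : ℤ) * (pm.2 + j) + v.2 ≠ pm.1}.Infinite ∧
      ∀ v ∈ W, TrueCase (v.1 * a / Nat.gcd (v.1 * a) b) (b / Nat.gcd (v.1 * a) b)
        (((v.1 : ℤ) * c - b * (v.1 * j + v.2)) / (Nat.gcd (v.1 * a) b : ℕ)) := by
  obtain ⟨κ, V, hκ, hVκ, hDU, hD⟩ := hMXF hF m hm
  obtain ⟨K, hK1, hK⟩ := JACW κ
  refine ⟨V, K, fun v hv => (hDU v hv).1, ?_⟩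
  intro a b c ha hb hab hbc
  -- a solution `a h - b m₀ = c` with `h` prime to the small primes
  obtain ⟨h₀, k₀, -, -, hsol₀⟩ := hSOL a b 1 0 0 c hab (by simp)
  have hbh₀ : IsCoprime (b : ℤ) h₀ := by
    have h1 : IsCoprime (b : ℤ) (a * h₀) := by
      have e : (a : ℤ) * h₀ = c + b * k₀ := by linarith
      rw [e]
      exact IsCoprime.add_mul_left_right hbc k₀
    exact h1.of_mul_right_right
  obtain ⟨j₀, -, hj₀⟩ := EVC_crt (2 * κ) b h₀ hbh₀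
  obtain ⟨h, hh⟩ : ∃ h : ℤ, h = h₀ - b * j₀ := ⟨_, rfl⟩
  obtain ⟨m₀, hm₀⟩ : ∃ m₀ : ℤ, m₀ = k₀ - a * j₀ := ⟨_, rfl⟩
  have hsol : (a : ℤ) * h - b * m₀ = c := by
    rw [hh, hm₀, ← hsol₀]
    ring
  have hbh : IsCoprime (b : ℤ) h := by
    have e : h = h₀ + b * (-(j₀ : ℤ)) := by rw [hh]; ring
    rw [e]
    exact IsCoprime.add_mul_left_right hbh₀ _
  rw [← hh] at hj₀
  -- the shift
  obtain ⟨B, hB, hBl⟩ := CASE_classes κ V hVκ m₀
  obtain ⟨J, hJ0, hJ1, hJP, hJl⟩ := hK a (-m₀) B ha hB (-1)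
  obtain ⟨j, hj⟩ : ∃ j : ℕ, (j : ℤ) = J := ⟨J.toNat, Int.toNat_of_nonneg (by linarith)⟩
  rw [← hj] at hJ0 hJ1 hJP hJl
  have hjle : j ≤ K ^ (#a.primeFactors + 1) := by
    have h1 : (j : ℤ) ≤ ((K ^ (#a.primeFactors + 1) : ℕ) : ℤ) := by
      push_cast
      linarith
    exact_mod_cast h1
  -- the conditions at all primes
  have hsmall : ∀ l : ℕ, l.Prime → l ≤ 2 * κ → (l : ℤ) ∣ m₀ + j := by
    intro l hl hle
    have h1 : (l : ℤ) ∣ (((2 * κ).factorial : ℕ) : ℤ) := by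
      exact_mod_cast (Nat.Prime.dvd_factorial hl).mpr hle
    have h2 := h1.trans hJP
    have e : (j : ℤ) - -m₀ = m₀ + j := by ring
    rwa [e] at h2
  have hw : FU (2 * κ) (b, h) := ⟨hb, hbh, hj₀⟩
  have hσ : ∀ v ∈ V, FU (2 * κ) (v.1 * a, v.1 * (m₀ + j) + v.2) := by
    intro v hv
    obtain ⟨hv1, hv2, hv3⟩ := hDU v hv
    have hpr : ∀ l : ℕ, l.Prime → l ≤ 2 * κ → ¬ (l : ℤ) ∣ (v.1 : ℤ) * (m₀ + j) + v.2 := by
      intro l hl hle hd
      apply hv3 l hl hle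
      have h1 : (l : ℤ) ∣ (v.1 : ℤ) * (m₀ + j) := (hsmall l hl hle).mul_left _
      have := dvd_sub hd h1
      simpa using this
    refine ⟨Nat.mul_pos hv1 ha, EVD_cop ?_, hpr⟩
    intro l hl hl1 hl2
    have hprime : Prime (l : ℤ) := Nat.prime_iff_prime_int.mp hl
    have hl1' : (l : ℤ) ∣ (v.1 : ℤ) * a := by simpa using hl1
    by_cases hle : l ≤ 2 * κ
    · exact hpr l hl hle hl2
    · push Not at hle
      by_cases hlv : (l : ℤ) ∣ (v.1 : ℤ)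
      · have h1 : (l : ℤ) ∣ v.2 := by
          have h2 : (l : ℤ) ∣ (v.1 : ℤ) * (m₀ + j) := hlv.mul_right _
          have := dvd_sub hl2 h2
          simpa using this
        exact hprime.not_isUnit (hv2.isUnit_of_dvd' hlv h1)
      · have hla : (l : ℤ) ∣ (a : ℤ) := (hprime.dvd_or_dvd hl1').resolve_left hlv
        have hla' : l ∣ a := by exact_mod_cast hla
        have hmem : l ∈ a.primeFactors := Nat.mem_primeFactors.mpr ⟨hl, hla', by omega⟩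
        exact hBl l hl v hv hlv j (hJl l hmem hle) hl2
  -- the primes
  obtain ⟨W, hWV, hWm, hinf⟩ := FORM_sub m V (fun n => ((b : ℤ) * n + h).toNat.Prime ∧ 0 ≤ (a : ℤ) * n + m₀)
    (fun n v => ((v.1 : ℤ) * (a * n + (m₀ + j)) + v.2).toNat.Prime ∧ (v.1 : ℤ) * (a * n + (m₀ + j)) + v.2 ≠ b * n + h) (by
      intro N
      obtain ⟨n, h1, -, h2, h3⟩ := hD a b h (m₀ + j) ha hw hσ (N + m₀.natAbs)
      refine ⟨n, by omega, ⟨h2, ?_⟩, h3⟩
      have h4 : ((N + m₀.natAbs : ℕ) : ℤ) ≤ n := by exact_mod_cast h1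
      have h5 : (n : ℤ) ≤ a * n := by
        have : (1 : ℤ) ≤ a := by exact_mod_cast ha
        nlinarith [Int.natCast_nonneg n]
      have h6 : -(m₀.natAbs : ℤ) ≤ m₀ := by
        rw [Int.natCast_natAbs]
        exact neg_abs_le m₀
      push_cast at h4
      have h7 : (0 : ℤ) ≤ N := Int.natCast_nonneg _
      have h8 : (m₀.natAbs : ℤ) = |m₀| := Int.natCast_natAbs m₀
      rw [h8] at h6
      linarith)
  refine ⟨j, hjle, W, hWV, hWm, ?_, ?_⟩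
  · refine Set.infinite_of_injOn_mapsTo (f := fun n : ℕ => (((b : ℤ) * n + h).toNat, ((a : ℤ) * n + m₀).toNat)) ?_ ?_ hinf
    · intro n hn n' hn' hnn
      have h1 : ((a : ℤ) * n + m₀).toNat = ((a : ℤ) * n' + m₀).toNat := congrArg Prod.snd hnn
      have h2 : (a : ℤ) * n + m₀ = (a : ℤ) * n' + m₀ := by
        rw [← Int.toNat_of_nonneg hn.1.2, ← Int.toNat_of_nonneg hn'.1.2, h1]
      have h3 : (a : ℤ) * n = a * n' := by linarith
      have h4 := mul_left_cancel₀ (show (a : ℤ) ≠ 0 by omega) h3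
      exact_mod_cast h4
    · intro n hn
      obtain ⟨⟨hp, hm0⟩, hW⟩ := hn
      have hp0 : 0 ≤ (b : ℤ) * n + h := by
        by_contra hneg
        rw [Int.toNat_of_nonpos (by omega)] at hp
        exact Nat.not_prime_zero hp
      refine ⟨hp, ?_, fun v hv => ?_⟩
      · show (a : ℤ) * (((b : ℤ) * n + h).toNat : ℤ) - b * (((a : ℤ) * n + m₀).toNat : ℤ) = c
        rw [Int.toNat_of_nonneg hp0, Int.toNat_of_nonneg hm0, ← hsol]
        ring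
      · show ((v.1 : ℤ) * ((((a : ℤ) * n + m₀).toNat : ℤ) + j) + v.2).toNat.Prime ∧
          (v.1 : ℤ) * ((((a : ℤ) * n + m₀).toNat : ℤ) + j) + v.2 ≠ (((b : ℤ) * n + h).toNat : ℤ)
        rw [Int.toNat_of_nonneg hp0, Int.toNat_of_nonneg hm0, add_assoc]
        exact hW v hv
  · intro v hv
    have h1 := FORM_tc hTRC (v.1 * a) b (v.1 * (m₀ + j) + v.2) h (Nat.mul_pos (hDU v (hWV hv)).1 ha) hb hbh
      (hinf.mono fun n hn => by
        obtain ⟨⟨hp, -⟩, hW⟩ := hn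
        have e : ((v.1 * a : ℕ) : ℤ) * n + (v.1 * (m₀ + j) + v.2) = (v.1 : ℤ) * (a * n + (m₀ + j)) + v.2 := by
          push_cast
          ring
        refine ⟨hp, ?_, ?_⟩
        · rw [e]
          exact (hW v hv).1
        · rw [e]
          exact (hW v hv).2)
    have e : ((v.1 * a : ℕ) : ℤ) * h - b * (v.1 * (m₀ + j) + v.2) = (v.1 : ℤ) * c - b * (v.1 * j + v.2) := by
      rw [← hsol]
      push_cast
      ring
    rw [e] at h1
    exact h1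

end Pool.Agent.EP
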