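import Pool.Agent.helper99.EP.Spec
import Pool.Agent.helper96.AL.JAC

/-!
# Project EP (MP_bf63dc_nt): the sieve lemma with the number of prime factors
-/

set_option autoImplicit false

namespace Pool.Agent.EP

open Finset Pool.Agent.helper85.FC

/-- The row JAC of the project AL (helper96) with a bound which depends only on the number of prime factors. -/
theorem JACW (κ : ℕ) : ∃ K : ℕ, 1 ≤ K ∧ ∀ (m : ℕ) (g : ℤ) (B : ℕ → Finset ℤ), 0 < m →
    (∀ l, #(B l) ≤ κ) → ∀ u : ℤ, ∃ c : ℤ, u < c ∧ c ≤ u + (K : ℤ) ^ (#m.primeFactors + 1) ∧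
    (((2 * κ).factorial : ℕ) : ℤ) ∣ c - g ∧
    ∀ l ∈ m.primeFactors, 2 * κ < l → ∀ β ∈ B l, ¬ (l : ℤ) ∣ c - β := by
  classical
  refine ⟨(2 * κ).factorial * 8 ^ κ, Nat.mul_pos (Nat.factorial_pos _) (by positivity), ?_⟩
  intro m g B hm hB u
  set w : ℕ := #m.primeFactors with hw
  set P : ℕ := (2 * κ).factorial with hP
  have hPpos : 0 < P := Nat.factorial_pos _
  set S : Finset ℕ := m.primeFactors.filter (fun l => 2 * κ < l ∧ l ≤ κ * w) with hS
  set Q : ℕ := ∏ l ∈ S, l with hQ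
  have hSp : ∀ l ∈ S, l.Prime := fun l hl => Nat.prime_of_mem_primeFactors (mem_filter.1 hl).1
  have hQpos : 0 < Q := prod_pos fun l hl => (hSp l hl).pos
  have hnP : ∀ l : ℕ, l.Prime → 2 * κ < l → ¬ l ∣ P := by
    intro l hl hlk hd
    exact absurd ((hl.dvd_factorial).1 hd) (not_le.2 hlk)
  have hQle : Q ≤ 4 ^ (κ * w) := by
    refine le_trans ?_ (primorial_le_four_pow (κ * w))
    unfold primorial
    refine prod_le_prod_of_subset_of_one_le' ?_ ?_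
    · intro l hl
      rw [mem_filter, mem_range]
      exact ⟨Nat.lt_succ_of_le (mem_filter.1 hl).2.2, hSp l hl⟩
    · intro l hl _
      exact (mem_filter.1 hl).2.one_lt.le
  -- classes
  have hcl : ∀ l : ℕ, ∃ r : ℤ, 2 * κ < l → ∀ β ∈ B l, ¬ (l : ℤ) ∣ r - β := by
    intro l
    by_cases hl : 2 * κ < l
    · obtain ⟨r, hr⟩ := Pool.Agent.AL.JAC_class l κ (B l) (hB l) (by omega)
      exact ⟨r, fun _ => hr⟩
    · exact ⟨0, fun h => absurd h hl⟩
  choose r hr using hcl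
  obtain ⟨c₁, hc1, hc2⟩ := Pool.Agent.AL.JAC_crt P g r S hSp (fun l hl => hnP l (hSp l hl) (mem_filter.1 hl).2.1)
  have hPQ : (0 : ℤ) < (P : ℤ) * Q := by
    have : 0 < P * Q := Nat.mul_pos hPpos hQpos
    exact_mod_cast this
  set c' : ℤ := u - (u - c₁) % ((P : ℤ) * Q) with hc'
  have hc'1 : u - (P : ℤ) * Q < c' := by
    have := Int.emod_lt_of_pos (u - c₁) hPQ
    rw [hc']; linarith
  have hc'2 : c' ≤ u := by
    have := Int.emod_nonneg (u - c₁) hPQ.ne'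
    rw [hc']; linarith
  have hc'3 : c' - c₁ = (P : ℤ) * Q * ((u - c₁) / ((P : ℤ) * Q)) := by
    have := Int.emod_add_mul_ediv (u - c₁) ((P : ℤ) * Q)
    rw [hc']; linarith
  -- the good j
  set T : Finset ℕ := m.primeFactors.filter (fun l => 2 * κ < l ∧ κ * w < l) with hT
  have hTP : ∀ l ∈ T, ¬ (l : ℤ) ∣ (P : ℤ) * Q := by
    intro l hl hd
    have hlp := Nat.prime_of_mem_primeFactors (mem_filter.1 hl).1
    have hd' : l ∣ P * Q := by exact_mod_cast hd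
    rcases hlp.dvd_mul.1 hd' with h1 | h1
    · exact hnP l hlp (mem_filter.1 hl).2.1 h1
    · obtain ⟨x, hx, hlx⟩ := (hlp.prime.dvd_finset_prod_iff _).1 h1
      have h2 := (Nat.prime_dvd_prime_iff_eq hlp (hSp x hx)).1 hlx
      have h3 := (mem_filter.1 hx).2.2
      have h4 := (mem_filter.1 hl).2.2
      omega
  set Bd : Finset ℕ := T.biUnion fun l => (B l).biUnion fun β =>
    {j ∈ Ioc 0 (κ * w + 1) | (l : ℤ) ∣ c' + (j : ℤ) * ((P : ℤ) * Q) - β} with hBd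
  have hBdc : #Bd ≤ w * κ := by
    refine (card_biUnion_le_card_mul T _ κ ?_).trans ?_
    · intro l hl
      refine (card_biUnion_le_card_mul (B l) _ 1 ?_).trans ?_
      · intro β hβ
        exact Pool.Agent.AL.JAC_one l (κ * w + 1) (Nat.prime_of_mem_primeFactors (mem_filter.1 hl).1) _ _ _ (hTP l hl)
          (mem_filter.1 hl).2.2
      · rw [mul_one]; exact hB l
    · exact Nat.mul_le_mul_right _ (card_filter_le _ _)
  have hlt : #Bd < #(Ioc 0 (κ * w + 1)) := by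
    rw [Nat.card_Ioc]
    have : w * κ = κ * w := Nat.mul_comm _ _
    omega
  obtain ⟨j, hj1, hj2⟩ := exists_mem_notMem_of_card_lt_card hlt
  rw [mem_Ioc] at hj1
  have hj0 : (1 : ℤ) ≤ j := by exact_mod_cast hj1.1
  have hjJ : (j : ℤ) ≤ κ * w + 1 := by exact_mod_cast hj1.2
  refine ⟨c' + (j : ℤ) * ((P : ℤ) * Q), ?_, ?_, ?_, ?_⟩
  · nlinarith [mul_le_mul_of_nonneg_right hj0 hPQ.le]
  · have h1 : c' + (j : ℤ) * ((P : ℤ) * Q) ≤ u + ((κ : ℤ) * w + 1) * ((P : ℤ) * Q) :=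
      add_le_add hc'2 (mul_le_mul_of_nonneg_right hjJ hPQ.le)
    have h2 : (κ * w + 1) * (P * Q) ≤ P * (8 ^ κ) ^ w := by
      have e1 : κ * w + 1 ≤ 2 ^ (κ * w) := Nat.lt_two_pow_self
      have e2 : (8 ^ κ) ^ w = 2 ^ (κ * w) * 4 ^ (κ * w) := by
        rw [← pow_mul, ← mul_pow]
        norm_num
      calc (κ * w + 1) * (P * Q) ≤ 2 ^ (κ * w) * (P * 4 ^ (κ * w)) :=
            Nat.mul_le_mul e1 (Nat.mul_le_mul_left _ hQle)
        _ = P * (8 ^ κ) ^ w := by rw [e2]; ring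
    have h3 : (κ * w + 1) * (P * Q) ≤ (P * 8 ^ κ) ^ (w + 1) := by
      refine h2.trans ?_
      have e3 : (P * 8 ^ κ) ^ (w + 1) = (P * P ^ w) * (8 ^ κ * (8 ^ κ) ^ w) := by
        rw [mul_pow, pow_succ', pow_succ']
      rw [e3]
      have e4 : P ≤ P * P ^ w := Nat.le_mul_of_pos_right _ (pow_pos hPpos _)
      have e5 : (8 ^ κ) ^ w ≤ 8 ^ κ * (8 ^ κ) ^ w := Nat.le_mul_of_pos_left _ (by positivity)
      exact Nat.mul_le_mul e4 e5
    have h4 : ((κ : ℤ) * w + 1) * ((P : ℤ) * Q) ≤ ((P * 8 ^ κ : ℕ) : ℤ) ^ (w + 1) := by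
      exact_mod_cast h3
    linarith
  · have e : c' + (j : ℤ) * ((P : ℤ) * Q) - g = (c' - c₁) + (c₁ - g) + P * ((j : ℤ) * Q) := by ring
    rw [e, hc'3]
    refine dvd_add (dvd_add ?_ hc1) (dvd_mul_right _ _)
    exact (dvd_mul_right (P : ℤ) (Q : ℤ)).mul_right _
  · intro l hl hlk β hβ hd
    by_cases hlz : l ≤ κ * w
    · have hlS : l ∈ S := mem_filter.2 ⟨hl, hlk, hlz⟩
      have hlQ : (l : ℤ) ∣ (P : ℤ) * Q := by
        have : l ∣ P * Q := (dvd_prod_of_mem _ hlS).mul_left _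
        exact_mod_cast this
      refine hr l hlk β hβ ?_
      have e : r l - β = (c' + (j : ℤ) * ((P : ℤ) * Q) - β) - (c₁ - r l) - (c' - c₁) - ((P : ℤ) * Q) * j := by ring
      rw [e, hc'3]
      exact dvd_sub (dvd_sub (dvd_sub hd (hc2 l hlS)) (hlQ.mul_right _)) (hlQ.mul_right _)
    · refine hj2 ?_
      rw [hBd, mem_biUnion]
      refine ⟨l, mem_filter.2 ⟨hl, hlk, not_le.1 hlz⟩, ?_⟩
      rw [mem_biUnion]
      refine ⟨β, hβ, ?_⟩
      rw [mem_filter, mem_Ioc]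
      exact ⟨hj1, hd⟩

end Pool.Agent.EP
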