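import Pool.Agent.helper81.EP.SpecK

/-!
# Project ep:, module KD: counting in two classes modulo `2 d`.
-/

set_option autoImplicit false

namespace Pool.Agent.EP

theorem KD_small (d o n : ℕ) (ho : o < d) (hn : n ≤ 2 * d) :
    ((Finset.range n).filter fun w => w % (2 * d) = o ∨ w % (2 * d) = 2 * d - o).card =
      (if o < n then 1 else 0) + (if 2 * d - o < n then 1 else 0) := by
  have h1 : ((Finset.range n).filter fun w => w % (2 * d) = o ∨ w % (2 * d) = 2 * d - o) =
      (if o < n then {o} else ∅) ∪ (if 2 * d - o < n then {2 * d - o} else ∅) := by
    ext w
    simp only [Finset.mem_filter, Finset.mem_range, Finset.mem_union]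
    constructor
    · rintro ⟨hw, h⟩
      rw [Nat.mod_eq_of_lt (by omega)] at h
      rcases h with h | h
      · left
        rw [if_pos (by omega), Finset.mem_singleton]
        exact h
      · right
        rw [if_pos (by omega), Finset.mem_singleton]
        exact h
    · rintro (h | h)
      · split_ifs at h with h2
        · rw [Finset.mem_singleton] at h
          subst h
          exact ⟨h2, Or.inl (Nat.mod_eq_of_lt (by omega))⟩
        · simp at h
      · split_ifs at h with h2
        · rw [Finset.mem_singleton] at h
          subst h
          exact ⟨h2, Or.inr (Nat.mod_eq_of_lt (by omega))⟩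
        · simp at h
  rw [h1, Finset.card_union_of_disjoint]
  · congr 1
    · split_ifs <;> simp
    · split_ifs <;> simp
  · split_ifs <;> simp
    omega

theorem KD : KD_stmt := by
  intro d o n hd ho hod hn
  induction n using Nat.strong_induction_on with
  | _ n ih =>
    by_cases h : n < 2 * d
    · rw [KD_small d o n hod h.le]
      unfold dis
      rw [Nat.mod_eq_of_lt h]
      by_cases h1 : o < n
      · by_cases h2 : 2 * d - o < n
        · rw [if_pos h1, if_pos h2]
          constructor
          · intro h3
            exact absurd h3 (by decide)
          · intro h3
            omega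
        · rw [if_pos h1, if_neg h2]
          constructor
          · intro _
            omega
          · intro _
            decide
      · rw [if_neg h1, if_neg (by omega)]
        constructor
        · intro h3
          exact absurd h3 (by decide)
        · intro h3
          omega
    · obtain ⟨m, rfl⟩ : ∃ m, n = 2 * d + m := ⟨n - 2 * d, by omega⟩
      have h1 := ih m (by omega) (by omega)
      have h2 : dis (2 * d + m) (2 * d) = dis m (2 * d) := by
        unfold dis
        rw [Nat.add_mod_left]
      rw [h2, ← h1, ← Nat.count_eq_card_filter_range, ← Nat.count_eq_card_filter_range,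
        Nat.count_add]
      have h3 : Nat.count (fun w => w % (2 * d) = o ∨ w % (2 * d) = 2 * d - o) (2 * d) = 2 := by
        rw [Nat.count_eq_card_filter_range, KD_small d o (2 * d) hod le_rfl, if_pos (by omega),
          if_pos (by omega)]
      have h4 : (fun k => (2 * d + k) % (2 * d) = o ∨ (2 * d + k) % (2 * d) = 2 * d - o) =
          fun w => w % (2 * d) = o ∨ w % (2 * d) = 2 * d - o := by
        funext k
        rw [Nat.add_mod_left]
      rw [h3]
      simp only [Nat.add_mod_left]
      rw [add_comm 2, Nat.odd_add]
      simp

end Pool.Agent.EP
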