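import Pool.Agent.helper81.EP.SpecO

set_option autoImplicit false

open Finset
open scoped Real

noncomputable section

namespace Pool.Agent.EP

theorem OD_tri (r : ℕ) : 24 * tri r + 3 = 3 * (2 * r + 1) ^ 2 := by
  have h1 : 2 * tri r = r * (r + 1) := by
    unfold tri
    exact Nat.mul_div_cancel' (Nat.even_mul_succ_self r).two_dvd
  have h2 : 24 * tri r = 12 * (r * (r + 1)) := by rw [← h1]; ring
  rw [h2]
  ring

theorem OD_ws_card (b : ℕ) : #(ws (4 ^ b)) ≤ 2 ^ b := by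
  have h : ws (4 ^ b) ⊆ range (2 ^ b) := by
    intro w hw
    unfold ws at hw
    rw [mem_filter] at hw
    rw [mem_range]
    have h4 : (4 : ℕ) ^ b = (2 ^ b) ^ 2 := by
      rw [← pow_mul, mul_comm, pow_mul]
      norm_num
    by_contra hcon
    push Not at hcon
    have h5 : (2 ^ b) ^ 2 ≤ w ^ 2 := Nat.pow_le_pow_left hcon 2
    have := hw.2.2
    rw [h4] at this
    omega
  calc #(ws (4 ^ b)) ≤ #(range (2 ^ b)) := card_le_card h
    _ = 2 ^ b := card_range _

/-- the inner set of natural numbers. -/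
def OD_in (b m T d : ℕ) : Finset ℕ :=
  {u ∈ Ioc T (2 * T) | d ∣ 3 * u ^ 2 + 4 ^ b * (24 * m - 1) ∧ Nat.Coprime u d}

theorem OD_inner (hOI : OI_stmt) (b m T d : ℕ) (hd : d % 2 = 1) (h3 : ¬ 3 ∣ d) :
    #(OD_in b m T d) ≤ (T / d + 1) * #d.divisors := by
  have h := hOI d T ((4 ^ b * (24 * m - 1) : ℕ) : ℤ) (((T + 1 : ℕ)) : ℤ) hd h3
  refine le_trans ?_ h
  refine card_le_card_of_injOn (fun u : ℕ => (u : ℤ)) ?_ ?_
  · intro u hu
    have hu' : u ∈ OD_in b m T d := hu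
    unfold OD_in at hu'
    rw [mem_filter, mem_Ioc] at hu'
    obtain ⟨⟨h1, h2⟩, h4, h5⟩ := hu'
    have : (u : ℤ) ∈ ({v ∈ Finset.Ico (((T + 1 : ℕ)) : ℤ) (((T + 1 : ℕ)) + (T : ℤ)) |
        (d : ℤ) ∣ 3 * v ^ 2 + ((4 ^ b * (24 * m - 1) : ℕ) : ℤ) ∧ Int.gcd v d = 1} : Finset ℤ) := by
      rw [mem_filter, mem_Ico]
      refine ⟨⟨?_, ?_⟩, ?_, ?_⟩
      · exact_mod_cast h1
      · push_cast
        have : (u : ℤ) ≤ 2 * T := by exact_mod_cast h2
        linarith
      · exact_mod_cast h4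
      · rw [Int.gcd_natCast_natCast]
        exact h5
    exact this
  · intro u _ v _ huv
    exact Int.natCast_inj.mp huv

theorem OD (hOI : OI_stmt) : OD_stmt := by
  intro b e m T D hb he hm hT hD
  classical
  have hsub : Bdu b e m T ⊆ (ws (4 ^ b)).biUnion (fun w =>
      ((4 ^ b - 3 * w ^ 2).divisors.filter (fun d => 2 ^ b * e ≤ d)).biUnion
        (fun d => OD_in b m T d)) := by
    intro u hu
    unfold Bdu at hu
    rw [mem_filter] at hu
    obtain ⟨huT, hup, hndvd, hncl⟩ := hu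
    have huT' := mem_Ioc.mp huT
    have hu2 : 2 < u := by omega
    have hodd : u % 2 = 1 := by
      rcases hup.eq_two_or_odd with h | h
      · omega
      · exact h
    unfold Cln at hncl
    push Not at hncl
    obtain ⟨w, hw, d, hd1, hd2, hd3⟩ := hncl
    have hw' := hw
    unfold ws at hw'
    rw [mem_filter] at hw'
    have hpos : 4 ^ b - 3 * w ^ 2 ≠ 0 := by
      have := hw'.2.2
      omega
    rw [mem_biUnion]
    refine ⟨w, hw, ?_⟩
    rw [mem_biUnion]
    refine ⟨d, ?_, ?_⟩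
    · rw [mem_filter, Nat.mem_divisors]
      exact ⟨⟨hd2, hpos⟩, hd1⟩
    · have hr : u = 2 * ((u - 1) / 2) + 1 := by omega
      have h24 : 24 * (tri ((u - 1) / 2) + 4 ^ b * m) + 3 - 4 ^ b =
          3 * u ^ 2 + 4 ^ b * (24 * m - 1) := by
        have h1 := OD_tri ((u - 1) / 2)
        rw [← hr] at h1
        obtain ⟨k, hk⟩ : ∃ k, m = k + 1 := ⟨m - 1, by omega⟩
        have h2 : 24 * m - 1 = 24 * k + 23 := by omega
        rw [h2]
        have h3 : 24 * (tri ((u - 1) / 2) + 4 ^ b * m) + 3 =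
            (24 * tri ((u - 1) / 2) + 3) + 24 * (4 ^ b * m) := by ring
        rw [h3, h1, hk]
        have h4 : 3 * u ^ 2 + 24 * (4 ^ b * (k + 1)) =
            (3 * u ^ 2 + 4 ^ b * (24 * k + 23)) + 4 ^ b := by ring
        rw [h4, Nat.add_sub_cancel]
      rw [h24] at hd3
      unfold OD_in
      rw [mem_filter]
      refine ⟨huT, hd3, ?_⟩
      rw [Nat.Prime.coprime_iff_not_dvd hup]
      intro hcon
      have h5 : u ∣ 3 * u ^ 2 + 4 ^ b * (24 * m - 1) := hcon.trans hd3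
      have h6 : u ∣ 4 ^ b * (24 * m - 1) := by
        have h7 : u ∣ 3 * u ^ 2 := Dvd.intro_left (3 * u) (by ring)
        exact (Nat.dvd_add_right h7).mp h5
      rcases (Nat.Prime.dvd_mul hup).mp h6 with h8 | h8
      · have h9 := hup.dvd_of_dvd_pow h8
        have h10 : u ∣ 2 ^ 2 := by
          norm_num
          exact h9
        have h11 := hup.dvd_of_dvd_pow h10
        have := Nat.le_of_dvd (by norm_num) h11
        omega
      · exact hndvd h8
  refine (card_le_card hsub).trans ?_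
  refine card_biUnion_le.trans ?_
  have hw_bound : ∀ w ∈ ws (4 ^ b),
      #(((4 ^ b - 3 * w ^ 2).divisors.filter (fun d => 2 ^ b * e ≤ d)).biUnion
        (fun d => OD_in b m T d)) ≤ D * ((T / (2 ^ b * e) + 1) * D) := by
    intro w hw
    have hw' := hw
    unfold ws at hw'
    rw [mem_filter] at hw'
    obtain ⟨_, hwodd, hwlt⟩ := hw'
    have hpos : 0 < 4 ^ b - 3 * w ^ 2 := by omega
    have hle : 4 ^ b - 3 * w ^ 2 ≤ 4 ^ b := Nat.sub_le _ _
    refine card_biUnion_le.trans ?_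
    have hcard : #((4 ^ b - 3 * w ^ 2).divisors.filter (fun d => 2 ^ b * e ≤ d)) ≤ D :=
      (card_filter_le _ _).trans (hD _ hpos hle)
    have hmod2 : (4 ^ b - 3 * w ^ 2) % 2 = 1 := by
      obtain ⟨k, hk⟩ : ∃ k, b = k + 1 := ⟨b - 1, by omega⟩
      have h4 : (4 : ℕ) ^ b = 2 * (2 * 4 ^ k) := by rw [hk]; ring
      have hw2 : w ^ 2 % 2 = 1 := by
        rw [Nat.pow_mod, hwodd]
      omega
    have hmod3 : ¬ 3 ∣ (4 ^ b - 3 * w ^ 2) := by
      intro h
      have h1 : 3 ∣ 4 ^ b := by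
        have h2 : 4 ^ b = (4 ^ b - 3 * w ^ 2) + 3 * w ^ 2 := by omega
        rw [h2]
        exact dvd_add h (Dvd.intro _ rfl)
      have h3 := Nat.Prime.dvd_of_dvd_pow Nat.prime_three h1
      omega
    have hterm : ∀ d ∈ (4 ^ b - 3 * w ^ 2).divisors.filter (fun d => 2 ^ b * e ≤ d),
        #(OD_in b m T d) ≤ (T / (2 ^ b * e) + 1) * D := by
      intro d hd
      rw [mem_filter, Nat.mem_divisors] at hd
      obtain ⟨⟨hd1, _⟩, hd2⟩ := hd
      have hdpos : 0 < d := Nat.pos_of_dvd_of_pos hd1 hpos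
      have hdle : d ≤ 4 ^ b := (Nat.le_of_dvd hpos hd1).trans hle
      have hdodd : d % 2 = 1 := by
        by_contra hcon
        have h2 : 2 ∣ d := by omega
        have h3 := h2.trans hd1
        omega
      have hd3 : ¬ 3 ∣ d := fun h => hmod3 (h.trans hd1)
      refine (OD_inner hOI b m T d hdodd hd3).trans ?_
      have hbe : 0 < 2 ^ b * e := by positivity
      exact Nat.mul_le_mul (Nat.add_le_add_right (Nat.div_le_div_left hd2 hbe) 1) (hD d hdpos hdle)
    calc ∑ d ∈ (4 ^ b - 3 * w ^ 2).divisors.filter (fun d => 2 ^ b * e ≤ d), #(OD_in b m T d)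
        ≤ ∑ d ∈ (4 ^ b - 3 * w ^ 2).divisors.filter (fun d => 2 ^ b * e ≤ d),
            (T / (2 ^ b * e) + 1) * D := sum_le_sum hterm
      _ = #((4 ^ b - 3 * w ^ 2).divisors.filter (fun d => 2 ^ b * e ≤ d)) *
            ((T / (2 ^ b * e) + 1) * D) := by rw [sum_const, smul_eq_mul]
      _ ≤ D * ((T / (2 ^ b * e) + 1) * D) := Nat.mul_le_mul_right _ hcard
  calc ∑ w ∈ ws (4 ^ b), #(((4 ^ b - 3 * w ^ 2).divisors.filter (fun d => 2 ^ b * e ≤ d)).biUnion
        (fun d => OD_in b m T d))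
      ≤ ∑ w ∈ ws (4 ^ b), D * ((T / (2 ^ b * e) + 1) * D) := sum_le_sum hw_bound
    _ = #(ws (4 ^ b)) * (D * ((T / (2 ^ b * e) + 1) * D)) := by rw [sum_const, smul_eq_mul]
    _ ≤ 2 ^ b * (D * ((T / (2 ^ b * e) + 1) * D)) := Nat.mul_le_mul_right _ (OD_ws_card b)
    _ = 2 ^ b * D ^ 2 * (T / (2 ^ b * e) + 1) := by ring

end Pool.Agent.EP
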