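import Pool.Agent.helper99.EP.Jac
import Pool.Agent.helper99.EP.Form
import Pool.Agent.helper26.EP.EVD

/-!
# Project EP (MP_bf63dc_nt): every progression of `c`, for every pair `(a, b)`
-/

set_option autoImplicit false

namespace Pool.Agent.EP

open Finset Pool.Agent.helper85.FC Pool.Agent.OM Pool.Agent.helper11.TX Pool.Agent.AT

/-- Chinese remainders: `x + y g` is prime to all elements of `S` -/
theorem PROG_crt (S : Finset ℕ) (hS : ∀ l ∈ S, l.Prime) (x y : ℤ) (h : ∀ l ∈ S, (l : ℤ) ∣ y → ¬ (l : ℤ) ∣ x) :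
    ∃ g : ℤ, ∀ l ∈ S, ¬ (l : ℤ) ∣ x + y * g := by
  classical
  obtain ⟨g, -, hg⟩ := Pool.Agent.AL.JAC_crt 1 0 (fun l => if (l : ℤ) ∣ x then 1 else 0) S hS
    (fun l hl hd => (hS l hl).one_lt.ne' (Nat.dvd_one.mp hd))
  refine ⟨g, fun l hl hd => ?_⟩
  have h1 := hg l hl
  by_cases hx : (l : ℤ) ∣ x
  · rw [if_pos hx] at h1
    have h2 : (l : ℤ) ∣ y := by
      have e : y = (x + y * g) - x - y * (g - 1) := by ring
      rw [e]
      exact dvd_sub (dvd_sub hd hx) (h1.mul_left _)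
    exact h l hl h2 hx
  · rw [if_neg hx] at h1
    apply hx
    have e : x = (x + y * g) - y * (g - 0) := by ring
    rw [e]
    exact dvd_sub hd (h1.mul_left _)

open Classical in
/-- the sieve lemma for progressions -/
theorem PROG_sieve (κ : ℕ) : ∃ K : ℕ, ∀ (T : Finset ℕ) (d : ℕ) (c g : ℤ) (B : ℕ → Finset ℤ), (∀ l ∈ T, l.Prime) →
    (∀ l ∈ T, ¬ l ∣ d) → (∀ l, #(B l) ≤ κ) → ∃ i : ℕ, i ≤ K ^ (#T + 1) ∧ (((2 * κ).factorial : ℕ) : ℤ) ∣ i - g ∧
    ∀ l ∈ T, 2 * κ < l → ∀ β ∈ B l, ¬ (l : ℤ) ∣ (c + d * i) - β := by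
  obtain ⟨K, hK1, hK⟩ := JACW κ
  refine ⟨K, ?_⟩
  intro T d c g B hT hd hB
  -- inverses of `d`
  have hinv : ∀ l : ℕ, ∃ e : ℤ, l ∈ T → (l : ℤ) ∣ (d : ℤ) * e - 1 := by
    intro l
    by_cases hl : l ∈ T
    · obtain ⟨e, he⟩ := EVD_sol (hT l hl) (s := d) (t := 1) (fun h => hd l hl (by exact_mod_cast h))
      exact ⟨e, fun _ => he⟩
    · exact ⟨0, fun h => absurd h hl⟩
  choose e he using hinv
  have hm : 0 < ∏ l ∈ T, l := prod_pos fun l hl => (hT l hl).pos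
  obtain ⟨J, hJ0, hJ1, hJP, hJl⟩ := hK (∏ l ∈ T, l) g (fun l => (B l).image fun β => (β - c) * e l) hm
    (fun l => card_image_le.trans (hB l)) (-1)
  have hpf : (∏ l ∈ T, l).primeFactors = T := Nat.primeFactors_prod hT
  rw [hpf] at hJ1 hJl
  obtain ⟨i, hi⟩ : ∃ i : ℕ, (i : ℤ) = J := ⟨J.toNat, Int.toNat_of_nonneg (by linarith)⟩
  rw [← hi] at hJ0 hJ1 hJP hJl
  refine ⟨i, ?_, hJP, ?_⟩
  · have h1 : (i : ℤ) ≤ ((K ^ (#T + 1) : ℕ) : ℤ) := by
      push_cast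
      linarith
    exact_mod_cast h1
  · intro l hl hlk β hβ hdv
    refine hJl l hl hlk ((β - c) * e l) (mem_image_of_mem _ hβ) ?_
    have e1 : (i : ℤ) - (β - c) * e l = ((c + d * i) - β) * e l - i * ((d : ℤ) * e l - 1) := by ring
    rw [e1]
    exact dvd_sub (hdv.mul_right _) ((he l hl).mul_left _)

open Classical in
/-- **Every progression.** -/
theorem PROG (hMXF : MXF_stmt) (hF : ∀ k : ℕ, 1 ≤ k → FMk k) (hSOL : Pool.Agent.AL.SOL_stmt) (hTRC : Pool.Agent.AL.TRC_stmt)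
    (m : ℕ) (hm : 1 ≤ m) : ∃ (V : Finset (ℕ × ℤ)) (K : ℕ), (∀ v ∈ V, 0 < v.1) ∧
    ∀ (a b d : ℕ) (c : ℤ), 1 ≤ a → 1 ≤ b → 1 ≤ d → Nat.Coprime a b → Nat.Coprime a d →
    (∀ l : ℕ, l.Prime → l ∣ b → l ∣ d → ¬ (l : ℤ) ∣ c) →
    ∃ i : ℕ, i ≤ K ^ (#{l ∈ (a * b).primeFactors | ¬ l ∣ d} + 1) ∧ ∃ W : Finset (ℕ × ℤ), W ⊆ V ∧ #W = m ∧
      {x : ℕ × ℕ | x.1.Prime ∧ (a : ℤ) * x.1 - b * x.2 = c + d * i ∧
        ∀ v ∈ W, ((v.1 : ℤ) * x.2 + v.2).toNat.Prime ∧ (v.1 : ℤ) * x.2 + v.2 ≠ x.1}.Infinite ∧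
      ∀ v ∈ W, TrueCase (v.1 * a / Nat.gcd (v.1 * a) b) (b / Nat.gcd (v.1 * a) b)
        (((v.1 : ℤ) * (c + d * i) - b * v.2) / (Nat.gcd (v.1 * a) b : ℕ)) := by
  obtain ⟨κ, V₀, hκ, hVκ, hDU, hD⟩ := hMXF hF m hm
  obtain ⟨K, hK⟩ := PROG_sieve κ
  obtain ⟨P, hP⟩ : ∃ P : ℕ, P = (2 * κ).factorial := ⟨_, rfl⟩
  have hP0 : 0 < P := by rw [hP]; exact Nat.factorial_pos _
  have hPz : (0 : ℤ) < P := by exact_mod_cast hP0
  let ρ : (ℕ × ℤ) × ℕ → ℕ × ℤ := fun x => (x.1.1, x.1.1 * x.2 + x.1.2)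
  refine ⟨(V₀ ×ˢ range P).image ρ, K, ?_, ?_⟩
  · intro v hv
    obtain ⟨x, hx, rfl⟩ := Finset.mem_image.mp hv
    exact (hDU x.1 (Finset.mem_product.mp hx).1).1
  intro a b d c ha hb hd hab had hbcd
  have hsmall : ∀ l : ℕ, l.Prime → l ≤ 2 * κ → (l : ℤ) ∣ (P : ℤ) := by
    intro l hl hle
    rw [hP]
    exact_mod_cast (Nat.Prime.dvd_factorial hl).mpr hle
  -- the small primes
  obtain ⟨S, hS⟩ : ∃ S : Finset ℕ, S = (range (2 * κ + 1)).filter Nat.Prime := ⟨_, rfl⟩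
  have hSm : ∀ l : ℕ, l ∈ S ↔ l ≤ 2 * κ ∧ l.Prime := by
    intro l
    rw [hS, mem_filter, mem_range]
    constructor
    · rintro ⟨h1, h2⟩
      exact ⟨by omega, h2⟩
    · rintro ⟨h1, h2⟩
      exact ⟨by omega, h2⟩
  obtain ⟨g, hg⟩ := PROG_crt (S.filter fun l => l ∣ b) (fun l hl => ((hSm l).1 (mem_filter.1 hl).1).2) c d (by
    intro l hl hld
    rw [mem_filter] at hl
    exact hbcd l ((hSm l).1 hl.1).2 hl.2 (by exact_mod_cast hld))
  obtain ⟨h₁, k₁, -, -, hsol₁⟩ := hSOL a b 1 0 0 (c + d * g) hab (by simp)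
  obtain ⟨j₀, hj₀⟩ := PROG_crt S (fun l hl => ((hSm l).1 hl).2) h₁ (-(b : ℤ)) (by
    intro l hl hlb hlh
    have hlb' : l ∣ b := by
      rw [dvd_neg] at hlb
      exact_mod_cast hlb
    refine hg l (mem_filter.2 ⟨hl, hlb'⟩) ?_
    rw [← hsol₁]
    have hlb2 : (l : ℤ) ∣ (b : ℤ) := by exact_mod_cast hlb'
    exact dvd_sub (hlh.mul_left _) (hlb2.mul_right _))
  obtain ⟨hP', hhP⟩ : ∃ x : ℤ, x = h₁ + -(b : ℤ) * j₀ := ⟨_, rfl⟩
  obtain ⟨mP, hmP⟩ : ∃ x : ℤ, x = k₁ - a * j₀ := ⟨_, rfl⟩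
  rw [← hhP] at hj₀
  have hsolP : (a : ℤ) * hP' - b * mP = c + d * g := by
    rw [hhP, hmP, ← hsol₁]
    ring
  obtain ⟨j, hj, hjP⟩ : ∃ j : ℕ, (P : ℤ) ∣ mP + j ∧ j < P := by
    have h0 : 0 ≤ (-mP) % P := Int.emod_nonneg _ hPz.ne'
    have h1 : (-mP) % P < P := Int.emod_lt_of_pos _ hPz
    obtain ⟨j, hj⟩ := Int.eq_ofNat_of_zero_le h0
    refine ⟨j, ?_, ?_⟩
    · have h2 : (j : ℤ) = (-mP) % P := hj.symm
      rw [h2]
      have h3 := Int.mul_ediv_add_emod (-mP) P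
      have e : mP + (-mP) % P = P * (-((-mP) / P)) := by linarith
      rw [e]
      exact dvd_mul_right _ _
    · have h2 : (j : ℤ) < P := by
        rw [← show (-mP) % P = (j : ℤ) from hj]
        exact h1
      exact_mod_cast h2
  -- the classes
  let bt : ℕ → ℕ × ℤ → ℤ := fun l v =>
    if hh : ∃ β : ℤ, (l : ℤ) ∣ (v.1 : ℤ) * β - b * (v.1 * j + v.2) then hh.choose else 0
  have hbt : ∀ (l : ℕ) (v : ℕ × ℤ), (∃ β : ℤ, (l : ℤ) ∣ (v.1 : ℤ) * β - b * (v.1 * j + v.2)) →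
      (l : ℤ) ∣ (v.1 : ℤ) * bt l v - b * (v.1 * j + v.2) := by
    intro l v hh
    simp only [bt, dif_pos hh]
    exact hh.choose_spec
  let B : ℕ → Finset ℤ := fun l => if l ∣ b then {0} else V₀.image (bt l)
  have hBc : ∀ l, #(B l) ≤ κ := by
    intro l
    by_cases h1 : l ∣ b
    · simp only [B, if_pos h1, card_singleton]
      exact hκ
    · simp only [B, if_neg h1]
      exact card_image_le.trans hVκ
  obtain ⟨i, hiK, hiP, hil⟩ := hK ((a * b).primeFactors.filter fun l => ¬ l ∣ d) d c g B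
    (fun l hl => Nat.prime_of_mem_primeFactors (mem_filter.1 hl).1) (fun l hl => (mem_filter.1 hl).2) hBc
  rw [← hP] at hiP
  obtain ⟨h, m₀, hP1, hP2, hsol⟩ := hSOL a b P hP' mP (c + d * i) hab (by
    rw [hsolP]
    have e : c + (d : ℤ) * i - (c + d * g) = d * (i - g) := by ring
    rw [e]
    exact hiP.mul_left _)
  have hh1 : ∀ l : ℕ, l.Prime → l ≤ 2 * κ → ¬ (l : ℤ) ∣ h := by
    intro l hl hle hd'
    refine hj₀ l ((hSm l).2 ⟨hle, hl⟩) ?_
    have h1 := (hsmall l hl hle).trans hP1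
    have e : hP' = h - (h - hP') := by ring
    rw [e]
    exact dvd_sub hd' h1
  have hh2 : ∀ l : ℕ, l.Prime → l ≤ 2 * κ → (l : ℤ) ∣ m₀ + j := by
    intro l hl hle
    have h1 := (hsmall l hl hle).trans hP2
    have h2 := (hsmall l hl hle).trans hj
    have e : m₀ + j = (m₀ - mP) + (mP + j) := by ring
    rw [e]
    exact dvd_add h1 h2
  have hw : FU (2 * κ) (b, h) := by
    refine ⟨hb, EVD_cop ?_, hh1⟩
    intro l hl hlb hlh
    by_cases hle : l ≤ 2 * κ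
    · exact hh1 l hl hle hlh
    · push Not at hle
      have hlb' : l ∣ b := by exact_mod_cast hlb
      have hlc : (l : ℤ) ∣ c + d * i := by
        rw [← hsol]
        exact dvd_sub (hlh.mul_left _) (hlb.mul_right _)
      by_cases hld : l ∣ d
      · refine hbcd l hl hlb' hld ?_
        have hld' : (l : ℤ) ∣ (d : ℤ) := by exact_mod_cast hld
        have e : c = (c + d * i) - d * i := by ring
        rw [e]
        exact dvd_sub hlc (hld'.mul_right _)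
      · have hmem : l ∈ (a * b).primeFactors.filter fun l => ¬ l ∣ d :=
          mem_filter.2 ⟨Nat.mem_primeFactors.mpr ⟨hl, hlb'.mul_left a, (Nat.mul_pos ha hb).ne'⟩, hld⟩
        have h0 : (0 : ℤ) ∈ B l := by
          simp only [B, if_pos hlb', mem_singleton]
        apply hil l hmem hle 0 h0
        rw [sub_zero]
        exact hlc
  have hσ : ∀ v ∈ V₀, FU (2 * κ) (v.1 * a, v.1 * (m₀ + j) + v.2) := by
    intro v hv
    obtain ⟨hv1, hv2, hv3⟩ := hDU v hv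
    have hpr : ∀ l : ℕ, l.Prime → l ≤ 2 * κ → ¬ (l : ℤ) ∣ (v.1 : ℤ) * (m₀ + j) + v.2 := by
      intro l hl hle hd'
      apply hv3 l hl hle
      have h1 : (l : ℤ) ∣ (v.1 : ℤ) * (m₀ + j) := (hh2 l hl hle).mul_left _
      have := dvd_sub hd' h1
      simpa using this
    refine ⟨Nat.mul_pos hv1 ha, EVD_cop ?_, hpr⟩
    intro l hl hl1 hl2
    have hprime : Prime (l : ℤ) := Nat.prime_iff_prime_int.mp hl
    have hl1' : (l : ℤ) ∣ (v.1 : ℤ) * a := by simpa using hl1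
    by_cases hle : l ≤ 2 * κ
    · exact hpr l hl hle hl2
    · push Not at hle
      by_cases hlv : (l : ℤ) ∣ (v.1 : ℤ)
      · have h1 : (l : ℤ) ∣ v.2 := by
          have h2 : (l : ℤ) ∣ (v.1 : ℤ) * (m₀ + j) := hlv.mul_right _
          have := dvd_sub hl2 h2
          simpa using this
        exact hprime.not_isUnit (hv2.isUnit_of_dvd' hlv h1)
      · have hla : (l : ℤ) ∣ (a : ℤ) := (hprime.dvd_or_dvd hl1').resolve_left hlv
        have hla' : l ∣ a := by exact_mod_cast hla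
        have hlb : ¬ l ∣ b := by
          intro hlb
          have := Nat.dvd_gcd hla' hlb
          rw [hab] at this
          exact hl.one_lt.ne' (Nat.dvd_one.mp this)
        have hld : ¬ l ∣ d := by
          intro hld
          have := Nat.dvd_gcd hla' hld
          rw [had] at this
          exact hl.one_lt.ne' (Nat.dvd_one.mp this)
        have hmem : l ∈ (a * b).primeFactors.filter fun l => ¬ l ∣ d :=
          mem_filter.2 ⟨Nat.mem_primeFactors.mpr ⟨hl, hla'.mul_right b, (Nat.mul_pos ha hb).ne'⟩, hld⟩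
        have hβ : bt l v ∈ B l := by
          simp only [B, if_neg hlb]
          exact mem_image_of_mem _ hv
        apply hil l hmem hle (bt l v) hβ
        have hspec := hbt l v (EVD_sol hl hlv)
        have h3 : (l : ℤ) ∣ (v.1 : ℤ) * ((c + d * i) - bt l v) := by
          have e : (v.1 : ℤ) * ((c + d * i) - bt l v) = (v.1 : ℤ) * h * a - b * ((v.1 : ℤ) * (m₀ + j) + v.2) -
              ((v.1 : ℤ) * bt l v - b * (v.1 * j + v.2)) := by
            rw [← hsol]; ring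
          rw [e]
          exact dvd_sub (dvd_sub (hla.mul_left _) (hl2.mul_left _)) hspec
        exact (hprime.dvd_or_dvd h3).resolve_left hlv
  -- the primes
  obtain ⟨W₀, hWV, hWm, hinf⟩ := FORM_sub m V₀ (fun n => ((b : ℤ) * n + h).toNat.Prime ∧ 0 ≤ (a : ℤ) * n + m₀)
    (fun n v => ((v.1 : ℤ) * (a * n + (m₀ + j)) + v.2).toNat.Prime ∧ (v.1 : ℤ) * (a * n + (m₀ + j)) + v.2 ≠ b * n + h) (by
      intro N
      obtain ⟨n, h1, -, h2, h3⟩ := hD a b h (m₀ + j) ha hw hσ (N + m₀.natAbs)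
      refine ⟨n, by omega, ⟨h2, ?_⟩, h3.trans (card_le_card fun v hv => ?_)⟩
      · have h4 : ((N + m₀.natAbs : ℕ) : ℤ) ≤ n := by exact_mod_cast h1
        have h5 : (n : ℤ) ≤ a * n := by
          have : (1 : ℤ) ≤ a := by exact_mod_cast ha
          nlinarith [Int.natCast_nonneg n]
        have h6 : -(m₀.natAbs : ℤ) ≤ m₀ := by
          rw [Int.natCast_natAbs]
          exact neg_abs_le m₀
        push_cast at h4
        have h7 : (0 : ℤ) ≤ N := Int.natCast_nonneg _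
        have h8 : (m₀.natAbs : ℤ) = |m₀| := Int.natCast_natAbs m₀
        rw [h8] at h6
        linarith
      · rw [mem_filter] at hv ⊢
        exact hv)
  have hinj : Function.Injective fun v : ℕ × ℤ => ρ (v, j) := by
    intro v w hvw
    have hvw' : (v.1, (v.1 : ℤ) * j + v.2) = (w.1, (w.1 : ℤ) * j + w.2) := hvw
    obtain ⟨h1, h2⟩ := Prod.mk.inj hvw'
    rw [h1] at h2
    exact Prod.ext h1 (by linarith)
  refine ⟨i, hiK, W₀.image fun v => ρ (v, j), ?_, ?_, ?_, ?_⟩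
  · intro w hw'
    obtain ⟨v, hv, rfl⟩ := Finset.mem_image.mp hw'
    exact Finset.mem_image_of_mem ρ (Finset.mem_product.mpr ⟨hWV hv, Finset.mem_range.mpr hjP⟩)
  · rw [card_image_of_injective _ hinj, hWm]
  · refine Set.infinite_of_injOn_mapsTo (f := fun n : ℕ => (((b : ℤ) * n + h).toNat, ((a : ℤ) * n + m₀).toNat)) ?_ ?_ hinf
    · intro n hn n' hn' hnn
      have h1 : ((a : ℤ) * n + m₀).toNat = ((a : ℤ) * n' + m₀).toNat := congrArg Prod.snd hnn
      have h2 : (a : ℤ) * n + m₀ = (a : ℤ) * n' + m₀ := by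
        rw [← Int.toNat_of_nonneg hn.1.2, ← Int.toNat_of_nonneg hn'.1.2, h1]
      have h3 : (a : ℤ) * n = a * n' := by linarith
      have h4 := mul_left_cancel₀ (show (a : ℤ) ≠ 0 by omega) h3
      exact_mod_cast h4
    · intro n hn
      obtain ⟨⟨hp, hm0⟩, hW⟩ := hn
      have hp0 : 0 ≤ (b : ℤ) * n + h := by
        by_contra hneg
        rw [Int.toNat_of_nonpos (by omega)] at hp
        exact Nat.not_prime_zero hp
      refine ⟨hp, ?_, fun w hw' => ?_⟩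
      · show (a : ℤ) * (((b : ℤ) * n + h).toNat : ℤ) - b * (((a : ℤ) * n + m₀).toNat : ℤ) = c + d * i
        rw [Int.toNat_of_nonneg hp0, Int.toNat_of_nonneg hm0, ← hsol]
        ring
      · obtain ⟨v, hv, rfl⟩ := Finset.mem_image.mp hw'
        show ((v.1 : ℤ) * (((a : ℤ) * n + m₀).toNat : ℤ) + (v.1 * j + v.2)).toNat.Prime ∧
          (v.1 : ℤ) * (((a : ℤ) * n + m₀).toNat : ℤ) + (v.1 * j + v.2) ≠ (((b : ℤ) * n + h).toNat : ℤ)
        rw [Int.toNat_of_nonneg hp0, Int.toNat_of_nonneg hm0]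
        have e : (v.1 : ℤ) * (a * n + m₀) + (v.1 * j + v.2) = (v.1 : ℤ) * (a * n + (m₀ + j)) + v.2 := by ring
        rw [e]
        exact hW v hv
  · intro w hw'
    obtain ⟨v, hv, rfl⟩ := Finset.mem_image.mp hw'
    have hbh : IsCoprime (b : ℤ) h := hw.2.1
    have h1 := FORM_tc hTRC (v.1 * a) b (v.1 * (m₀ + j) + v.2) h (Nat.mul_pos (hDU v (hWV hv)).1 ha) hb hbh
      (hinf.mono fun n hn => by
        obtain ⟨⟨hp, -⟩, hW⟩ := hn
        have e : ((v.1 * a : ℕ) : ℤ) * n + (v.1 * (m₀ + j) + v.2) = (v.1 : ℤ) * (a * n + (m₀ + j)) + v.2 := by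
          push_cast
          ring
        refine ⟨hp, ?_, ?_⟩
        · rw [e]
          exact (hW v hv).1
        · rw [e]
          exact (hW v hv).2)
    have e : ((v.1 * a : ℕ) : ℤ) * h - b * (v.1 * (m₀ + j) + v.2) = (v.1 : ℤ) * (c + d * i) - b * (v.1 * j + v.2) := by
      rw [← hsol]
      push_cast
      ring
    rw [e] at h1
    exact h1

end Pool.Agent.EP
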