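import Pool.Agent.helper99.EP.Spec
import Pool.Agent.helper74.EP.WDW
import Pool.Agent.helper68.EP.UQS

set_option autoImplicit false

namespace Pool.Agent.EP

open Finset Pool.Agent.helper85.FC Pool.Agent.OM Pool.Agent.helper11.TX Pool.Agent.AT

theorem UQCx_le (a b M : ℕ) (u : ℤ) : Tw TrueCase SS a b M u ≤ Tw Pool.Agent.helper11.TX.Adm SS a b M u := by
  classical
  unfold Tw
  refine sum_le_sum_of_subset_of_nonneg ?_ fun c _ _ => UQS_SS_nonneg a b c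
  intro c hc
  obtain ⟨h1, h2, h3, h4, h5, h6, h7, h8, -⟩ := mem_filter.1 hc
  exact mem_filter.2 ⟨h1, h2, h3, h4, h5, h6, h7, h8⟩

theorem UQCx_nonneg (P : ℕ → ℕ → ℤ → Prop) (a b M : ℕ) (u : ℤ) : 0 ≤ Tw P SS a b M u := by
  unfold Tw
  exact sum_nonneg fun c _ => UQS_SS_nonneg a b c

theorem UQCx_DD1 (a b M : ℕ) (u : ℤ) : DD a b M u ≤ 1 := by
  unfold DD
  exact div_le_one_of_le₀ (UQCx_le a b M u) (UQCx_nonneg _ a b M u)

theorem UQCx : UQC_stmt := by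
  intro hDF δ X hδ hX hlt hX1
  by_contra hcon
  push Not at hcon
  -- a common bound for the scales
  have h1 : ∃ X₀ : ℕ, ∀ s ∈ X, ∀ t ∈ X, s ≠ t → ∀ Z : ℕ, X₀ ≤ Z →
      Ms TrueCase (s / Nat.gcd s t) (t / Nat.gcd s t) Z <
        δ * Ms Pool.Agent.helper11.TX.Adm (s / Nat.gcd s t) (t / Nat.gcd s t) Z := by
    have h2 : ∀ p : ℕ × ℕ, ∃ Y : ℕ, p.1 ∈ X → p.2 ∈ X → p.1 ≠ p.2 → ∀ Z : ℕ, Y ≤ Z →
        Ms TrueCase (p.1 / Nat.gcd p.1 p.2) (p.2 / Nat.gcd p.1 p.2) Z <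
          δ * Ms Pool.Agent.helper11.TX.Adm (p.1 / Nat.gcd p.1 p.2) (p.2 / Nat.gcd p.1 p.2) Z := by
      rintro ⟨s, t⟩
      by_cases h : s ∈ X ∧ t ∈ X ∧ s ≠ t
      · obtain ⟨hs, ht, hne⟩ := h
        have h3 := hcon s hs t ht hne
        unfold UQ UD at h3
        push Not at h3
        obtain ⟨Y, hY⟩ := h3
        exact ⟨Y, fun _ _ _ => hY⟩
      · exact ⟨0, fun h1 h2 h3 => absurd ⟨h1, h2, h3⟩ h⟩
    choose Y hY using h2
    refine ⟨∑ p ∈ X ×ˢ X, Y p, fun s hs t ht hne Z hZ => hY (s, t) hs ht hne Z (le_trans ?_ hZ)⟩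
    exact single_le_sum (f := Y) (fun _ _ => Nat.zero_le _) (mem_product.2 ⟨hs, ht⟩)
  obtain ⟨X₀, hX₀⟩ := h1
  have hm : (0 : ℝ) < #X := by exact_mod_cast hX1
  obtain ⟨ε, hε⟩ : ∃ ε : ℝ, ε = ((#X : ℝ) / 3 - 1 - ((#X : ℝ) - 1) * δ) / (2 * #X) := ⟨_, rfl⟩
  have hε0 : 0 < ε := by
    rw [hε]
    apply div_pos <;> linarith
  have hεm : ε * #X = ((#X : ℝ) / 3 - 1 - ((#X : ℝ) - 1) * δ) / 2 := by
    rw [hε]
    field_simp
  obtain ⟨M₀, hM₀⟩ := hDF X (fun _ => 1) (fun s hs => ⟨hX s hs, zero_le_one⟩) ε hε0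
  have hprod : 0 < ∏ s ∈ X, s := prod_pos fun s hs => hX s hs
  obtain ⟨M, hM⟩ : ∃ M : ℕ, M = (M₀ + X₀ + 1) * ∏ s ∈ X, s := ⟨_, rfl⟩
  have hM1 : M₀ + X₀ + 1 ≤ M := by
    rw [hM]
    exact Nat.le_mul_of_pos_right _ hprod
  have h2 := hM₀ (2 * M) (by omega) (-(M : ℤ)) (by rw [abs_neg, Nat.abs_cast]; push_cast; omega)
  have h3 : ∀ s ∈ X, ∀ t ∈ X, (1 : ℝ) * 1 * DD (t / Nat.gcd s t) (s / Nat.gcd s t) (2 * M) (-(M : ℤ)) ≤ if s = t then 1 else δ := by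
    intro s hs t ht
    rw [one_mul, one_mul]
    by_cases hst : s = t
    · rw [if_pos hst]
      exact UQCx_DD1 _ _ _ _
    · rw [if_neg hst]
      have hs1 := hX s hs
      have ht1 := hX t ht
      have hg : 0 < Nat.gcd s t := Nat.gcd_pos_of_pos_left _ hs1
      have ha : 1 ≤ t / Nat.gcd s t := Nat.div_pos (Nat.le_of_dvd ht1 (Nat.gcd_dvd_right s t)) hg
      have hb : 1 ≤ s / Nat.gcd s t := Nat.div_pos (Nat.le_of_dvd hs1 (Nat.gcd_dvd_left s t)) hg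
      have hne1 : ¬ (t / Nat.gcd s t = 1 ∧ s / Nat.gcd s t = 1) := by
        rintro ⟨e1, e2⟩
        apply hst
        have f1 := Nat.div_mul_cancel (Nat.gcd_dvd_right s t)
        have f2 := Nat.div_mul_cancel (Nat.gcd_dvd_left s t)
        rw [e1, one_mul] at f1
        rw [e2, one_mul] at f2
        rw [← f1, ← f2]
        -- both are the gcd
        rw [f2, f1]
        exact f2.symm.trans f1
      have hdvd : t / Nat.gcd s t ∣ M := by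
        rw [hM]
        exact ((Nat.div_dvd_of_dvd (Nat.gcd_dvd_right s t)).trans (dvd_prod_of_mem _ ht)).mul_left _
      obtain ⟨w1, w2⟩ := WDW (t / Nat.gcd s t) (s / Nat.gcd s t) M ha hb (by omega) (Or.inr ⟨hne1, hdvd⟩)
      unfold DD
      rw [w1, w2]
      have h4 := hX₀ t ht s hs (Ne.symm hst) ((s / Nat.gcd s t) * M) (by
        have : M ≤ (s / Nat.gcd s t) * M := Nat.le_mul_of_pos_left _ hb
        omega)
      rw [Nat.gcd_comm t s] at h4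
      rcases (UQS_Ms_nonneg Pool.Agent.helper11.TX.Adm (t / Nat.gcd s t) (s / Nat.gcd s t)
        ((s / Nat.gcd s t) * M)).eq_or_lt with h5 | h5
      · rw [← h5, div_zero]
        exact hδ
      · exact (div_le_iff₀ h5).2 h4.le
  have h4 : ∑ s ∈ X, ∑ t ∈ X, (1 : ℝ) * 1 * DD (t / Nat.gcd s t) (s / Nat.gcd s t) (2 * M) (-(M : ℤ)) ≤
      #X * (1 + ((#X : ℝ) - 1) * δ) := by
    refine (sum_le_sum fun s hs => sum_le_sum fun t ht => h3 s hs t ht).trans (le_of_eq ?_)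
    have h5 : ∀ s ∈ X, ∑ t ∈ X, (if s = t then (1 : ℝ) else δ) = 1 + ((#X : ℝ) - 1) * δ := by
      intro s hs
      rw [← add_sum_erase X _ hs, if_pos rfl]
      have h6 : ∑ t ∈ X.erase s, (if s = t then (1 : ℝ) else δ) = ∑ t ∈ X.erase s, δ := by
        refine sum_congr rfl fun t ht => ?_
        rw [if_neg (Ne.symm (mem_erase.1 ht).1)]
      rw [h6, sum_const, card_erase_of_mem hs, nsmul_eq_mul, Nat.cast_sub hX1, Nat.cast_one]
    rw [sum_congr rfl h5, sum_const, nsmul_eq_mul]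
  have h5 := h2.trans h4
  rw [sum_const, nsmul_eq_mul, mul_one] at h5
  have h6 : (1 / 3 - ε) * (#X : ℝ) ≤ 1 + ((#X : ℝ) - 1) * δ := by
    have h7 : (#X : ℝ) * ((1 / 3 - ε) * (#X : ℝ)) ≤ #X * (1 + ((#X : ℝ) - 1) * δ) := by
      calc (#X : ℝ) * ((1 / 3 - ε) * (#X : ℝ)) = (1 / 3 - ε) * (#X : ℝ) ^ 2 := by ring
        _ ≤ _ := h5
    exact le_of_mul_le_mul_left h7 hm
  have h8 : (1 / 3 - ε) * (#X : ℝ) = (#X : ℝ) / 3 - ε * #X := by ring
  rw [h8, hεm] at h6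
  linarith

end Pool.Agent.EP
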